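import Pool.Agent.T9h5.GG.Spec

/-!
# Elementary lemmas on `Ar A Z`
-/

set_option autoImplicit false
set_option linter.unusedSectionVars false

namespace Pool.Agent.T9h5.GG

open Finset

section deg

variable {Z : Type} (dg : Z → ℕ)

theorem dEg_zero : dEg dg 0 = 0 := Finsupp.sum_zero_index

theorem dEg_add (E F : Z →₀ ℕ) : dEg dg (E + F) = dEg dg E + dEg dg F := by
  unfold dEg
  exact Finsupp.sum_add_index' (fun _ => Nat.zero_mul _) (fun _ _ _ => Nat.add_mul _ _ _)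

theorem dEg_mono {E F : Z →₀ ℕ} (h : E ≤ F) : dEg dg E ≤ dEg dg F := by
  have h1 : F = E + (F - E) := (add_tsub_cancel_of_le h).symm
  rw [h1, dEg_add]
  exact Nat.le_add_right _ _

theorem dEg_single (z : Z) (n : ℕ) : dEg dg (Finsupp.single z n) = n * dg z :=
  Finsupp.sum_single_index (Nat.zero_mul _)

end deg

namespace Ar

variable {A Z : Type} [CommRing A] (S : Ar A Z)

theorem dE_zero : S.dE 0 = 0 := dEg_zero _

theorem dE_add (E F : Z →₀ ℕ) : S.dE (E + F) = S.dE E + S.dE F := dEg_add _ _ _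

theorem dE_mono {E F : Z →₀ ℕ} (h : E ≤ F) : S.dE E ≤ S.dE F := dEg_mono _ h

theorem dE_single (z : Z) (n : ℕ) : S.dE (Finsupp.single z n) = n * S.dg z := dEg_single _ _ _

theorem dE_sub {E F : Z →₀ ℕ} (h : E ≤ F) : S.dE (F - E) + S.dE E = S.dE F := by
  rw [← dE_add, tsub_add_cancel_of_le h]

theorem dE_eq_zero {E : Z →₀ ℕ} (h : S.dE E = 0) : E = 0 := by
  ext z
  by_contra hz
  have h1 : Finsupp.single z (E z) ≤ E := by
    rw [Finsupp.single_le_iff]
  have h2 := S.dE_mono h1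
  rw [dE_single, h, Nat.le_zero, Nat.mul_eq_zero] at h2
  rcases h2 with h2 | h2
  · exact hz h2
  · exact absurd h2 (S.dg_pos z).ne'

theorem le_dE {E : Z →₀ ℕ} (z : Z) : E z * S.dg z ≤ S.dE E := by
  rw [← dE_single]
  exact S.dE_mono (by rw [Finsupp.single_le_iff])

theorem dE_dv' {x : A} (hx : x ≠ 0) : S.dE (S.dv x) = S.δ * S.ht x := S.dE_dv x hx

theorem q_pos : 0 < S.q := lt_of_lt_of_le Nat.zero_lt_two S.two_le_q

variable [IsDomain A]

theorem dv_one : S.dv 1 = 0 := by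
  have h := S.dv_mul 1 1 one_ne_zero one_ne_zero
  rw [one_mul] at h
  exact left_eq_add.1 h

theorem ht_of_dE {x : A} (hx : x ≠ 0) {n : ℕ} (h : S.dE (S.dv x) = S.δ * n) : S.ht x = n := by
  rw [S.dE_dv' hx] at h
  exact Nat.eq_of_mul_eq_mul_left S.δ_pos h

theorem ht_mul {x y : A} (hx : x ≠ 0) (hy : y ≠ 0) : S.ht (x * y) = S.ht x + S.ht y := by
  apply S.ht_of_dE (mul_ne_zero hx hy)
  rw [S.dv_mul x y hx hy, dE_add, S.dE_dv' hx, S.dE_dv' hy, Nat.mul_add]

theorem ht_one : S.ht 1 = 0 := by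
  apply S.ht_of_dE one_ne_zero
  rw [S.dv_one, dE_zero, Nat.mul_zero]

theorem dv_le_mul {x y : A} (hx : x ≠ 0) (hy : y ≠ 0) : S.dv x ≤ S.dv (x * y) := by
  rw [S.dv_mul x y hx hy]
  exact le_self_add

theorem ht_le_mul {x y : A} (hx : x ≠ 0) (hy : y ≠ 0) : S.ht x ≤ S.ht (x * y) := by
  rw [S.ht_mul hx hy]
  exact le_self_add

theorem dv_le_of_dvd {x y : A} (hy : y ≠ 0) (h : x ∣ y) : S.dv x ≤ S.dv y := by
  obtain ⟨z, rfl⟩ := h
  exact S.dv_le_mul (left_ne_zero_of_mul hy) (right_ne_zero_of_mul hy)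

theorem dvd_iff {x y : A} (hx : x ≠ 0) (hy : y ≠ 0) : x ∣ y ↔ S.dv x ≤ S.dv y :=
  ⟨S.dv_le_of_dvd hy, S.dvd_of_le x y hx hy⟩

theorem dvd_iff_In {x y : A} (hx : x ≠ 0) : x ∣ y ↔ S.In (S.dv x) y := by
  by_cases hy : y = 0
  · subst hy
    simp [In]
  · rw [S.dvd_iff hx hy, In, or_iff_right hy]

theorem dv_pow {x : A} (hx : x ≠ 0) (n : ℕ) : S.dv (x ^ n) = n • S.dv x := by
  induction n with
  | zero => rw [pow_zero, S.dv_one, zero_smul]
  | succ n ih => rw [pow_succ, S.dv_mul _ _ (pow_ne_zero _ hx) hx, ih, succ_nsmul]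

theorem ht_pow {x : A} (hx : x ≠ 0) (n : ℕ) : S.ht (x ^ n) = n * S.ht x := by
  induction n with
  | zero => rw [pow_zero, S.ht_one, Nat.zero_mul]
  | succ n ih => rw [pow_succ, S.ht_mul (pow_ne_zero _ hx) hx, ih, Nat.succ_mul]

theorem dv_prod {ι : Type} (s : Finset ι) (f : ι → A) (hf : ∀ i ∈ s, f i ≠ 0) :
    S.dv (∏ i ∈ s, f i) = ∑ i ∈ s, S.dv (f i) := by
  classical
  induction s using Finset.induction_on with
  | empty => rw [Finset.prod_empty, Finset.sum_empty, S.dv_one]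
  | insert a s ha ih =>
    rw [Finset.prod_insert ha, Finset.sum_insert ha, S.dv_mul _ _ (hf a (mem_insert_self _ _))
      (Finset.prod_ne_zero_iff.2 fun i hi => hf i (mem_insert_of_mem hi)),
      ih fun i hi => hf i (mem_insert_of_mem hi)]

theorem ht_prod {ι : Type} (s : Finset ι) (f : ι → A) (hf : ∀ i ∈ s, f i ≠ 0) :
    S.ht (∏ i ∈ s, f i) = ∑ i ∈ s, S.ht (f i) := by
  classical
  induction s using Finset.induction_on with
  | empty => rw [Finset.prod_empty, Finset.sum_empty, S.ht_one]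
  | insert a s ha ih =>
    rw [Finset.prod_insert ha, Finset.sum_insert ha, S.ht_mul (hf a (mem_insert_self _ _))
      (Finset.prod_ne_zero_iff.2 fun i hi => hf i (mem_insert_of_mem hi)),
      ih fun i hi => hf i (mem_insert_of_mem hi)]

theorem ne_one_neg : (-1 : A) ≠ 0 := neg_ne_zero.2 one_ne_zero

theorem dv_neg_one : S.dv (-1) = 0 := by
  have h := S.dv_mul (-1) (-1) ne_one_neg ne_one_neg
  rw [neg_one_mul, neg_neg, S.dv_one] at h
  ext z
  have h1 := DFunLike.congr_fun h z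
  simp only [Finsupp.coe_zero, Pi.zero_apply, Finsupp.coe_add, Pi.add_apply] at h1 ⊢
  omega

theorem dv_neg (x : A) : S.dv (-x) = S.dv x := by
  by_cases hx : x = 0
  · rw [hx, neg_zero]
  · rw [← neg_one_mul, S.dv_mul _ _ ne_one_neg hx, S.dv_neg_one, zero_add]

theorem ht_neg (x : A) : S.ht (-x) = S.ht x := by
  by_cases hx : x = 0
  · rw [hx, neg_zero]
  · apply S.ht_of_dE (neg_ne_zero.2 hx)
    rw [S.dv_neg, S.dE_dv' hx]

theorem ht_unit {x : A} (hx : x ≠ 0) : S.ht x = 0 ↔ S.dv x = 0 := by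
  constructor
  · intro h
    apply S.dE_eq_zero
    rw [S.dE_dv' hx, h, Nat.mul_zero]
  · intro h
    apply S.ht_of_dE hx
    rw [h, dE_zero, Nat.mul_zero]

theorem isUnit_iff {x : A} (hx : x ≠ 0) : IsUnit x ↔ S.dv x = 0 := by
  rw [isUnit_iff_dvd_one, S.dvd_iff hx one_ne_zero, S.dv_one, nonpos_iff_eq_zero]

theorem ht_sub {x y : A} (hx : x ≠ 0) (hy : y ≠ 0) (h : x - y ≠ 0) :
    S.ht (x - y) ≤ max (S.ht x) (S.ht y) := by
  rw [sub_eq_add_neg] at h ⊢
  have := S.ht_add x (-y) hx (neg_ne_zero.2 hy) h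
  rwa [S.ht_neg] at this

/-- strictly larger height wins -/
theorem ht_add_lt {x y : A} (hx : x ≠ 0) (hy : y ≠ 0) (h : S.ht y < S.ht x) :
    x + y ≠ 0 ∧ S.ht (x + y) = S.ht x := by
  have h0 : x + y ≠ 0 := by
    intro h0
    have h1 : x = -y := eq_neg_of_add_eq_zero_left h0
    rw [h1, S.ht_neg] at h
    exact lt_irrefl _ h
  refine ⟨h0, le_antisymm ?_ ?_⟩
  · exact (S.ht_add x y hx hy h0).trans (by rw [max_eq_left h.le])
  · have h1 : x + y - y ≠ 0 := by rwa [add_sub_cancel_right]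
    have h2 := S.ht_sub h0 hy h1
    rw [add_sub_cancel_right] at h2
    rcases le_max_iff.1 h2 with h3 | h3
    · exact h3
    · exact absurd h3 (not_le.2 h)

/-- `In` -/
theorem In_zero (E : Z →₀ ℕ) : S.In E 0 := Or.inl rfl

theorem In_neg {E : Z →₀ ℕ} {x : A} (h : S.In E x) : S.In E (-x) := by
  rcases h with h | h
  · left; rw [h, neg_zero]
  · right; rwa [S.dv_neg]

theorem In_add {E : Z →₀ ℕ} {x y : A} (hx : S.In E x) (hy : S.In E y) : S.In E (x + y) := by
  by_cases h0 : x + y = 0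
  · exact Or.inl h0
  by_cases hx0 : x = 0
  · rw [hx0, zero_add]; exact hy
  by_cases hy0 : y = 0
  · rw [hy0, add_zero]; exact hx
  right
  intro z
  exact (le_min ((hx.resolve_left hx0) z) ((hy.resolve_left hy0) z)).trans
    (S.dv_add x y hx0 hy0 h0 z)

theorem In_sub {E : Z →₀ ℕ} {x y : A} (hx : S.In E x) (hy : S.In E y) : S.In E (x - y) := by
  rw [sub_eq_add_neg]
  exact S.In_add hx (S.In_neg hy)

theorem In_mul {E : Z →₀ ℕ} {x : A} (y : A) (hx : S.In E x) : S.In E (y * x) := by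
  rcases hx with hx | hx
  · left; rw [hx, mul_zero]
  · by_cases hy : y = 0
    · left; rw [hy, zero_mul]
    by_cases hx0 : x = 0
    · left; rw [hx0, mul_zero]
    right
    rw [S.dv_mul y x hy hx0]
    exact hx.trans le_add_self

theorem In_mono {E F : Z →₀ ℕ} (h : E ≤ F) {x : A} (hx : S.In F x) : S.In E x :=
  hx.imp id fun h1 => h.trans h1

theorem In_all (x : A) : S.In 0 x := Or.inr zero_le

theorem In_sup {E F : Z →₀ ℕ} {x : A} : S.In (E ⊔ F) x ↔ S.In E x ∧ S.In F x := by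
  constructor
  · intro h
    exact ⟨S.In_mono le_sup_left h, S.In_mono le_sup_right h⟩
  · rintro ⟨h1, h2⟩
    rcases h1 with h1 | h1
    · exact Or.inl h1
    rcases h2 with h2 | h2
    · exact Or.inl h2
    exact Or.inr (sup_le h1 h2)

theorem In_iff {E : Z →₀ ℕ} {x : A} (hx : x ≠ 0) : S.In E x ↔ E ≤ S.dv x := or_iff_right hx

/-- the ideal of the multiples of `E` -/
def I (E : Z →₀ ℕ) : Ideal A where
  carrier := {x | S.In E x}
  add_mem' := fun h1 h2 => S.In_add h1 h2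
  zero_mem' := S.In_zero E
  smul_mem' := fun y _ hx => S.In_mul y hx

theorem mem_I {E : Z →₀ ℕ} {x : A} : x ∈ S.I E ↔ S.In E x := Iff.rfl

theorem I_dv {x : A} (hx : x ≠ 0) : S.I (S.dv x) = Ideal.span {x} := by
  ext y
  rw [Ideal.mem_span_singleton, mem_I, S.dvd_iff_In hx]

/-- additive group of the elements of height less than `m` -/
def B (m : ℕ) : AddSubgroup A where
  carrier := {x | x = 0 ∨ S.ht x < m}
  zero_mem' := Or.inl rfl
  add_mem' := by
    rintro x y hx hy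
    by_cases h0 : x + y = 0
    · exact Or.inl h0
    by_cases hx0 : x = 0
    · rw [hx0, zero_add]; exact hy
    by_cases hy0 : y = 0
    · rw [hy0, add_zero]; exact hx
    right
    exact (S.ht_add x y hx0 hy0 h0).trans_lt
      (max_lt (hx.resolve_left hx0) (hy.resolve_left hy0))
  neg_mem' := by
    rintro x hx
    rcases hx with hx | hx
    · left; show -x = 0; rw [hx, neg_zero]
    · right; rwa [S.ht_neg]

theorem mem_B {m : ℕ} {x : A} : x ∈ S.B m ↔ x = 0 ∨ S.ht x < m := Iff.rfl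

theorem B_mono {m n : ℕ} (h : m ≤ n) : S.B m ≤ S.B n :=
  fun _ hx => hx.imp id fun h1 => lt_of_lt_of_le h1 h

theorem sub_mem_B {m : ℕ} {x y : A} : x - y ∈ S.B m ↔ x = y ∨ S.ht (x - y) < m := by
  rw [mem_B, sub_eq_zero]

/-- elements of sign `1` and height `D` -/
theorem mon_iff {g : A} {D : ℕ} (hg : S.mon g) (hD : S.ht g = D) (x : A) :
    (S.mon x ∧ S.ht x = D) ↔ (x = g ∨ S.ht (x - g) < D) := by
  constructor
  · rintro ⟨h1, h2⟩
    by_cases h : x = g
    · exact Or.inl h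
    · right
      have := S.mon_sub x g h1 hg (h2.trans hD.symm) h
      rwa [h2] at this
  · rintro (h | h)
    · rw [h]; exact ⟨hg, hD⟩
    · by_cases h0 : x - g = 0
      · rw [sub_eq_zero.1 h0]; exact ⟨hg, hD⟩
      have h1 : x = g + (x - g) := (add_sub_cancel _ _).symm
      have h2 : S.ht (x - g) < S.ht g := by rwa [hD]
      constructor
      · rw [h1]; exact S.mon_add g (x - g) hg h0 h2
      · rw [h1, (S.ht_add_lt (S.mon_ne g hg) h0 h2).2, hD]

theorem mon_pow' {x : A} (hx : S.mon x) (n : ℕ) : S.mon (x ^ n) := by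
  induction n with
  | zero => rw [pow_zero]; exact S.mon_one
  | succ n ih => rw [pow_succ]; exact S.mon_mul _ _ ih hx

theorem mon_prod {ι : Type} (s : Finset ι) (f : ι → A) (hf : ∀ i ∈ s, S.mon (f i)) :
    S.mon (∏ i ∈ s, f i) := by
  classical
  induction s using Finset.induction_on with
  | empty => rw [Finset.prod_empty]; exact S.mon_one
  | insert a s ha ih =>
    rw [Finset.prod_insert ha]
    exact S.mon_mul _ _ (hf a (mem_insert_self _ _)) (ih fun i hi => hf i (mem_insert_of_mem hi))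

/-- a unit of sign `1` is `1` -/
theorem mon_unit {x : A} (hx : S.mon x) (h : S.ht x = 0) : x = 1 := by
  by_contra h1
  have := S.mon_sub x 1 hx S.mon_one (by rw [h, S.ht_one]) h1
  omega

theorem box_B (E : Z →₀ ℕ) (m : ℕ) (h : S.dE E + S.c₀ ≤ S.δ * m) :
    {x | x ∈ S.B m ∧ S.In E x}.ncard * S.q ^ (S.dE E + S.c) = S.q ^ (S.δ * m) := by
  rw [← S.box E m h]
  congr 2
  ext x
  simp only [Set.mem_ofPred_eq, mem_B, In]
  tauto

theorem c_le (E : Z →₀ ℕ) (m : ℕ) (h : S.dE E + S.c₀ ≤ S.δ * m) : S.dE E + S.c ≤ S.δ * m := by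
  have h1 := S.box_B E m h
  have h2 : S.q ^ (S.dE E + S.c) ∣ S.q ^ (S.δ * m) := Dvd.intro_left _ h1
  exact (Nat.pow_dvd_pow_iff_le_right S.two_le_q).1 h2

theorem box_B' (E : Z →₀ ℕ) (m : ℕ) (h : S.dE E + S.c₀ ≤ S.δ * m) :
    {x | x ∈ S.B m ∧ S.In E x}.ncard = S.q ^ (S.δ * m - S.dE E - S.c) := by
  have h1 := S.box_B E m h
  have h2 := S.c_le E m h
  have h3 : S.q ^ (S.δ * m - S.dE E - S.c) * S.q ^ (S.dE E + S.c) = S.q ^ (S.δ * m) := by
    rw [← pow_add]; congr 1; omega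
  exact Nat.eq_of_mul_eq_mul_right (pow_pos S.q_pos _) (h1.trans h3.symm)

theorem B_finite (m : ℕ) : (S.B m : Set A).Finite := by
  have h1 : ∃ n, m ≤ n ∧ S.dE 0 + S.c₀ ≤ S.δ * n := by
    refine ⟨m + S.c₀, Nat.le_add_right _ _, ?_⟩
    rw [dE_zero, zero_add]
    calc S.c₀ ≤ m + S.c₀ := Nat.le_add_left _ _
      _ ≤ S.δ * (m + S.c₀) := Nat.le_mul_of_pos_left _ S.δ_pos
  obtain ⟨n, hn, hn2⟩ := h1
  have h2 : (S.B n : Set A).Finite := by
    apply Set.finite_of_ncard_pos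
    have h3 := S.box_B' 0 n hn2
    have h4 : {x | x ∈ S.B n ∧ S.In 0 x} = (S.B n : Set A) := by
      ext x
      simp only [Set.mem_ofPred_eq, SetLike.mem_coe, and_iff_left_iff_imp]
      exact fun _ => S.In_all x
    rw [← h4, h3]
    exact pow_pos S.q_pos _
  exact h2.subset (S.B_mono hn)

end Ar

/-- finite sets -/
theorem mem_fs {T : Type} {s : Set T} (h : s.Finite) {x : T} : x ∈ fs s ↔ x ∈ s := by
  unfold fs
  rw [dif_pos h, Set.Finite.mem_toFinset]

theorem coe_fs {T : Type} {s : Set T} (h : s.Finite) : (fs s : Set T) = s := by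
  ext x; exact mem_fs h

theorem card_fs {T : Type} {s : Set T} (h : s.Finite) : (fs s).card = s.ncard := by
  rw [← Set.ncard_coe_finset, coe_fs h]

namespace Ar

variable {A Z : Type} [CommRing A] [IsDomain A] (S : Ar A Z)

theorem Box_finite (g : A) (D : ℕ) : {x | x = g ∨ S.ht (x - g) < D}.Finite := by
  have h : {x | x = g ∨ S.ht (x - g) < D} = (fun y => g + y) '' (S.B D : Set A) := by
    ext x
    simp only [Set.mem_ofPred_eq, Set.mem_image, SetLike.mem_coe, mem_B]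
    constructor
    · intro h
      refine ⟨x - g, ?_, by ring⟩
      rwa [sub_eq_zero]
    · rintro ⟨y, hy, rfl⟩
      rw [add_sub_cancel_left]
      rcases hy with hy | hy
      · left; rw [hy, add_zero]
      · right; exact hy
  rw [h]
  exact (S.B_finite D).image _

theorem mem_Box {g x : A} {D : ℕ} : x ∈ S.Box g D ↔ x = g ∨ S.ht (x - g) < D :=
  mem_fs (S.Box_finite g D)

theorem mem_Box' {g x : A} {D : ℕ} : x ∈ S.Box g D ↔ x - g ∈ S.B D := by
  rw [mem_Box, sub_mem_B]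

theorem Cop_finite (M : A) (D : ℕ) : {x | S.mon x ∧ S.ht x = D ∧ IsCoprime x M}.Finite := by
  apply (S.B_finite (D + 1)).subset
  rintro x ⟨_, h, _⟩
  exact Or.inr (by omega)

theorem mem_Cop {M x : A} {D : ℕ} : x ∈ S.Cop M D ↔ S.mon x ∧ S.ht x = D ∧ IsCoprime x M :=
  mem_fs (S.Cop_finite M D)

end Ar

end Pool.Agent.T9h5.GG
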