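import Pool.Agent.T9h5.GG.Lem

/-!
# Basic facts on `Ar A Z`: boxes, residue classes, Chinese remainders, ideals
-/

set_option autoImplicit false
set_option linter.unusedSectionVars false

namespace Pool.Agent.T9h5.GG

open Finset

namespace Ar

variable {A Z : Type} [CommRing A] [IsDomain A] (S : Ar A Z)

/-- the additive group of the multiples of `E` -/
def J (E : Z →₀ ℕ) : AddSubgroup A := (S.I E).toAddSubgroup

theorem mem_J {E : Z →₀ ℕ} {x : A} : x ∈ S.J E ↔ S.In E x := Iff.rfl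

theorem exists_ge (n : ℕ) : ∃ m, n ≤ S.δ * m :=
  ⟨n, Nat.le_mul_of_pos_left _ S.δ_pos⟩

theorem card_B (m : ℕ) (h : S.c₀ ≤ S.δ * m) : Nat.card (S.B m) * S.q ^ S.c = S.q ^ (S.δ * m) := by
  have h1 := S.box_B 0 m (by rwa [dE_zero, zero_add])
  rw [dE_zero, zero_add] at h1
  rw [← h1]
  congr 1
  change Nat.card (S.B m : Set A) = _
  rw [Nat.card_coe_set_eq]
  congr 1
  ext x
  simp only [Set.mem_ofPred_eq, SetLike.mem_coe]
  exact ⟨fun h => ⟨h, S.In_all x⟩, fun h => h.1⟩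

theorem card_inf (E : Z →₀ ℕ) (m : ℕ) (h : S.dE E + S.c₀ ≤ S.δ * m) :
    Nat.card ((S.J E ⊓ S.B m : AddSubgroup A)) * S.q ^ (S.dE E + S.c) = S.q ^ (S.δ * m) := by
  have h1 := S.box_B E m h
  rw [← h1]
  congr 1
  change Nat.card ((S.J E ⊓ S.B m : AddSubgroup A) : Set A) = _
  rw [Nat.card_coe_set_eq]
  congr 1
  ext x
  simp only [Set.mem_ofPred_eq, SetLike.mem_coe, AddSubgroup.mem_inf, mem_J]
  exact and_comm

theorem relIndex_JB (E : Z →₀ ℕ) (m : ℕ) (h : S.dE E + S.c₀ ≤ S.δ * m) :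
    (S.J E).relIndex (S.B m) = S.q ^ S.dE E := by
  have h1 : (⊥ : AddSubgroup A).relIndex (S.J E ⊓ S.B m) * (S.J E ⊓ S.B m).relIndex (S.B m) =
      (⊥ : AddSubgroup A).relIndex (S.B m) :=
    AddSubgroup.relIndex_mul_relIndex _ _ _ bot_le inf_le_right
  rw [AddSubgroup.relIndex_bot_left, AddSubgroup.relIndex_bot_left,
    AddSubgroup.inf_relIndex_right] at h1
  have h2 := S.card_inf E m h
  have h3 := S.card_B m ((Nat.le_add_left _ _).trans h)
  rw [← h1] at h3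
  have h4 : 0 < Nat.card ((S.J E ⊓ S.B m : AddSubgroup A)) := by
    by_contra h0
    rw [Nat.eq_zero_of_not_pos h0, Nat.zero_mul] at h2
    exact (pow_pos S.q_pos _).ne h2
  have h5 : 0 < S.q ^ S.c := pow_pos S.q_pos _
  have h6 : Nat.card ((S.J E ⊓ S.B m : AddSubgroup A)) * (S.q ^ S.c *
      (S.J E).relIndex (S.B m)) = Nat.card ((S.J E ⊓ S.B m : AddSubgroup A)) * (S.q ^ S.c *
      S.q ^ S.dE E) := by
    rw [← pow_add, Nat.add_comm S.c, h2, ← h3]
    ring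
  exact Nat.eq_of_mul_eq_mul_left h5 (Nat.eq_of_mul_eq_mul_left h4 h6)

theorem sup_eq_top (E : Z →₀ ℕ) (m : ℕ) (h : S.dE E + S.c₀ ≤ S.δ * m) :
    S.B m ⊔ S.J E = ⊤ := by
  rw [eq_top_iff]
  intro x _
  set n := max m (S.ht x + 1) with hn
  have h1 : S.dE E + S.c₀ ≤ S.δ * n := h.trans (Nat.mul_le_mul_left _ (le_max_left _ _))
  have hx : x ∈ S.B n := Or.inr (lt_of_lt_of_le (Nat.lt_succ_self _) (le_max_right _ _))
  have h2 := AddSubgroup.relIndex_sup_right (S.B m) (S.J E)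
  have h3 := AddSubgroup.relIndex_sup_right (S.B n) (S.J E)
  have h4 : S.B m ⊔ S.J E ≤ S.B n ⊔ S.J E := sup_le_sup_right (S.B_mono (le_max_left _ _)) _
  have h5 := AddSubgroup.relIndex_mul_relIndex (S.J E) (S.B m ⊔ S.J E) (S.B n ⊔ S.J E)
    le_sup_right h4
  rw [h2, h3, S.relIndex_JB E m h, S.relIndex_JB E n h1] at h5
  have h6 : (S.B m ⊔ S.J E).relIndex (S.B n ⊔ S.J E) = 1 :=
    Nat.eq_of_mul_eq_mul_left (pow_pos S.q_pos (S.dE E)) (by rw [h5, mul_one])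
  rw [AddSubgroup.relIndex_eq_one] at h6
  exact h6 (AddSubgroup.mem_sup_left hx)

theorem index_J (E : Z →₀ ℕ) : (S.J E).index = S.q ^ S.dE E := by
  obtain ⟨m, hm⟩ := S.exists_ge (S.dE E + S.c₀)
  rw [← AddSubgroup.relIndex_top_right, ← S.sup_eq_top E m hm, AddSubgroup.relIndex_sup_right,
    S.relIndex_JB E m hm]

theorem J_mono {E F : Z →₀ ℕ} (h : E ≤ F) : S.J F ≤ S.J E := fun _ hx => S.In_mono h hx

theorem J_inf (E F : Z →₀ ℕ) : S.J E ⊓ S.J F = S.J (E ⊔ F) := by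
  ext x
  rw [AddSubgroup.mem_inf, mem_J, mem_J, mem_J, In_sup]

theorem dE_inf_sup (E F : Z →₀ ℕ) : S.dE (E ⊓ F) + S.dE (E ⊔ F) = S.dE E + S.dE F := by
  rw [← dE_add, ← dE_add]
  congr 1
  ext z
  simp only [Finsupp.coe_add, Pi.add_apply, Finsupp.inf_apply, Finsupp.sup_apply]
  rcases le_total (E z) (F z) with h | h <;> simp [h, Nat.add_comm]

theorem J_sup (E F : Z →₀ ℕ) : S.J E ⊔ S.J F = S.J (E ⊓ F) := by
  have h1 : S.J E ⊔ S.J F ≤ S.J (E ⊓ F) :=
    sup_le (S.J_mono inf_le_left) (S.J_mono inf_le_right)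
  have h2 : (S.J E).relIndex (S.J E ⊔ S.J F) * (S.J E ⊔ S.J F).index = (S.J E).index :=
    AddSubgroup.relIndex_mul_index le_sup_left
  have h3 : (S.J E).relIndex (S.J E ⊔ S.J F) = (S.J (E ⊔ F)).relIndex (S.J F) := by
    rw [AddSubgroup.relIndex_sup_left, ← J_inf, AddSubgroup.inf_relIndex_right]
  have h4 : (S.J (E ⊔ F)).relIndex (S.J F) * (S.J F).index = (S.J (E ⊔ F)).index :=
    AddSubgroup.relIndex_mul_index (S.J_mono le_sup_right)
  have h5 : (S.J E ⊔ S.J F).relIndex (S.J (E ⊓ F)) * (S.J (E ⊓ F)).index =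
    (S.J E ⊔ S.J F).index := AddSubgroup.relIndex_mul_index h1
  rw [S.index_J] at h2 h4 h5
  rw [S.index_J] at h4
  rw [h3] at h2
  have hq : ∀ n, 0 < S.q ^ n := fun n => pow_pos S.q_pos n
  have h6 := S.dE_inf_sup E F
  refine le_antisymm h1 ?_
  rw [← AddSubgroup.relIndex_eq_one]
  set a := (S.J E ⊔ S.J F).relIndex (S.J (E ⊓ F))
  set b := (S.J (E ⊔ F)).relIndex (S.J F)
  rw [← h5] at h2
  have h7 : a * (S.q ^ S.dE (E ⊓ F) * S.q ^ S.dE (E ⊔ F)) = S.q ^ S.dE E * S.q ^ S.dE F := by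
    rw [← h4, ← h2]; ring
  rw [← pow_add, ← pow_add, h6] at h7
  exact Nat.eq_of_mul_eq_mul_right (hq _) (by rw [h7, one_mul])

theorem J_zero : S.J 0 = ⊤ := by
  rw [eq_top_iff]
  intro x _
  exact S.In_all x

theorem inf_eq_zero {E F : Z →₀ ℕ} (h : ∀ z, E z = 0 ∨ F z = 0) : E ⊓ F = 0 := by
  ext z
  rw [Finsupp.inf_apply]
  rcases h z with h | h <;> simp [h]

theorem exists_split {E F : Z →₀ ℕ} (h : ∀ z, E z = 0 ∨ F z = 0) (a : A) :
    ∃ x y, S.In E x ∧ S.In F y ∧ x + y = a := by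
  have h1 : a ∈ S.J E ⊔ S.J F := by
    rw [S.J_sup, inf_eq_zero h, S.J_zero]; exact AddSubgroup.mem_top _
  obtain ⟨x, hx, y, hy, hxy⟩ := AddSubgroup.mem_sup.1 h1
  exact ⟨x, y, hx, hy, hxy⟩

/-- a representative of a class in a box -/
theorem exists_rep (E : Z →₀ ℕ) (ρ g : A) (D : ℕ) (h : S.dE E + S.c₀ ≤ S.δ * D) :
    ∃ y, y - g ∈ S.B D ∧ S.In E (y - ρ) := by
  have h1 : ρ - g ∈ S.B D ⊔ S.J E := by rw [S.sup_eq_top E D h]; exact AddSubgroup.mem_top _
  obtain ⟨b, hb, i, hi, hbi⟩ := AddSubgroup.mem_sup.1 h1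
  refine ⟨g + b, by rwa [add_sub_cancel_left], ?_⟩
  have h2 : g + b - ρ = -i := by
    have : ρ = g + b + i := by rw [add_assoc, hbi]; ring
    rw [this]; ring
  rw [h2]
  exact S.In_neg hi

end Ar

theorem boxCount : BoxCount := by
  intro A Z _ _ S E ρ g D h
  obtain ⟨y, hy1, hy2⟩ := S.exists_rep E ρ g D h
  rw [← S.box_B E D h]
  congr 1
  have h1 : {x ∈ (S.Box g D : Set A) | S.In E (x - ρ)} =
      (fun t => y + t) '' {x | x ∈ S.B D ∧ S.In E x} := by
    ext x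
    simp only [Set.mem_ofPred_eq, Set.mem_image, Finset.mem_coe, S.mem_Box']
    constructor
    · rintro ⟨h1, h2⟩
      refine ⟨x - y, ⟨?_, ?_⟩, by ring⟩
      · have := (S.B D).sub_mem h1 hy1
        have h3 : x - y = x - g - (y - g) := by ring
        rwa [h3]
      · have := S.In_sub h2 hy2
        have h3 : x - y = x - ρ - (y - ρ) := by ring
        rwa [h3]
    · rintro ⟨t, ⟨h1, h2⟩, rfl⟩
      constructor
      · have := (S.B D).add_mem h1 hy1
        have h3 : y + t - g = t + (y - g) := by ring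
        rwa [h3]
      · have := S.In_add h2 hy2
        have h3 : y + t - ρ = t + (y - ρ) := by ring
        rwa [h3]
  rw [h1]
  exact Set.ncard_image_of_injective _ (fun a b hab => add_left_cancel hab)

theorem eff_finite {A Z : Type} [CommRing A] [IsDomain A] (S : Ar A Z) (n : ℕ) :
    {E : Z →₀ ℕ | S.dE E = n}.Finite := by
  classical
  obtain ⟨m, hm⟩ := S.exists_ge (n + S.c₀ + S.c + 1)
  have h1 : {E : Z →₀ ℕ | S.dE E = n} ⊆
      ⋃ x ∈ ((S.B m : Set A) \ {0}), Set.Iic (S.dv x) := by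
    intro E hE
    have hE' : S.dE E = n := hE
    have h2 := S.box_B' E m (by omega)
    have h3 : 1 < {x | x ∈ S.B m ∧ S.In E x}.ncard := by
      rw [h2]
      apply Nat.one_lt_pow _ S.two_le_q
      omega
    have hf : Finite {x | x ∈ S.B m ∧ S.In E x} :=
      ((S.B_finite m).subset (fun x hx => hx.1)).to_subtype
    obtain ⟨x, hx, hx0⟩ := (Set.one_lt_ncard_iff_nontrivial.1 h3).exists_ne 0
    rw [Set.mem_iUnion₂]
    exact ⟨x, ⟨hx.1, hx0⟩, (hx.2.resolve_left hx0)⟩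
  refine Set.Finite.subset ?_ h1
  refine Set.Finite.biUnion ((S.B_finite m).subset Set.sdiff_subset) ?_
  intro x _
  exact Set.finite_Iic _

theorem mem_Ecop {A Z : Type} [CommRing A] [IsDomain A] (S : Ar A Z) {M : A} {E : Z →₀ ℕ}
    {n : ℕ} : E ∈ S.Ecop M n ↔ S.dE E = n ∧ S.Cp E M :=
  mem_fs ((eff_finite S n).subset fun _ h => h.1)

theorem card_Box {A Z : Type} [CommRing A] [IsDomain A] (S : Ar A Z) (g : A) (D : ℕ)
    (h : S.c₀ ≤ S.δ * D) : (S.Box g D).card * S.q ^ S.c = S.q ^ (S.δ * D) := by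
  have h1 := boxCount A Z S 0 0 g D (by rwa [S.dE_zero, zero_add])
  rw [S.dE_zero, zero_add] at h1
  rw [← h1]
  congr 1
  rw [← Set.ncard_coe_finset]
  congr 1
  ext x
  simp only [Set.mem_ofPred_eq]
  exact ⟨fun h => ⟨h, S.In_all _⟩, fun h => h.1⟩

theorem boxMem : BoxMem := by
  intro A Z _ _ S
  refine ⟨fun g x D => S.mem_Box, fun M x D => S.mem_Cop, fun M E n => mem_Ecop S,
    fun g D h => card_Box S g D h, fun g D => ?_⟩
  by_cases h : S.c₀ ≤ S.δ * D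
  · have h1 := card_Box S g D h
    calc (S.Box g D).card ≤ (S.Box g D).card * S.q ^ S.c :=
          Nat.le_mul_of_pos_right _ (pow_pos S.q_pos _)
      _ = S.q ^ (S.δ * D) := h1
      _ ≤ _ := Nat.pow_le_pow_right S.q_pos (Nat.le_add_right _ _)
  · set D' := S.c₀ / S.δ + 1 with hD'
    have h2 : S.c₀ ≤ S.δ * D' := by
      exact (Nat.lt_mul_div_succ S.c₀ S.δ_pos).le
    have h3 : S.δ * D' ≤ S.c₀ + S.δ := by
      rw [hD', Nat.mul_add, mul_one]
      have := Nat.mul_div_le S.c₀ S.δ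
      omega
    have h4 : D ≤ D' := by
      by_contra h5
      apply h
      exact h2.trans (Nat.mul_le_mul_left _ (by omega))
    have h5 : S.Box g D ⊆ S.Box g D' := by
      intro x hx
      rw [S.mem_Box'] at hx ⊢
      exact S.B_mono h4 hx
    have h1 := card_Box S g D' h2
    calc (S.Box g D).card ≤ (S.Box g D').card := Finset.card_le_card h5
      _ ≤ (S.Box g D').card * S.q ^ S.c := Nat.le_mul_of_pos_right _ (pow_pos S.q_pos _)
      _ = S.q ^ (S.δ * D') := h1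
      _ ≤ _ := Nat.pow_le_pow_right S.q_pos (by omega)

theorem crt : Crt := by
  intro A Z _ _ S E F h a b
  obtain ⟨x, y, hx, hy, hxy⟩ := S.exists_split h (a - b)
  refine ⟨a - x, ?_, ?_⟩
  · have : a - x - a = -x := by ring
    rw [this]; exact S.In_neg hx
  · have h1 : a - x - b = y := by
      have : a - x - b = a - b - x := by ring
      rw [this, ← hxy]; ring
    rw [h1]; exact hy

theorem copIff : CopIff := by
  intro A Z _ _ S x y hx hy
  constructor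
  · rintro ⟨a, b, hab⟩ z
    by_contra h
    push Not at h
    have h1 : S.In (Finsupp.single z 1) x := Or.inr (by
      rw [Finsupp.single_le_iff]; exact Nat.one_le_iff_ne_zero.2 h.1)
    have h2 : S.In (Finsupp.single z 1) y := Or.inr (by
      rw [Finsupp.single_le_iff]; exact Nat.one_le_iff_ne_zero.2 h.2)
    have h3 := S.In_add (S.In_mul a h1) (S.In_mul b h2)
    rw [hab, S.In_iff one_ne_zero, S.dv_one, Finsupp.single_le_iff] at h3
    simp at h3
  · intro h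
    obtain ⟨a, b, ha, hb, hab⟩ := S.exists_split h 1
    rw [← S.dvd_iff_In hx] at ha
    rw [← S.dvd_iff_In hy] at hb
    obtain ⟨a, rfl⟩ := ha
    obtain ⟨b, rfl⟩ := hb
    exact ⟨a, b, by rw [← hab]; ring⟩

theorem idealCls : IdealCls := by
  intro A Z _ _ S J hJ
  have h1 : ∃ n : ℕ, ∃ E : Z →₀ ℕ, S.dE E = n ∧ S.J E ≤ J.toAddSubgroup := by
    obtain ⟨x, hx, hx0⟩ := Submodule.exists_mem_ne_zero_of_ne_bot hJ
    refine ⟨_, S.dv x, rfl, ?_⟩
    intro y hy
    rw [S.mem_J, ← S.dvd_iff_In hx0] at hy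
    exact J.mem_of_dvd hy hx
  classical
  obtain ⟨E, hE1, hE2⟩ := Nat.find_spec h1
  have hmin := @Nat.find_min _ _ h1
  refine ⟨E, fun y => ⟨fun hy => ?_, fun hy => hE2 hy⟩⟩
  by_cases hy0 : y = 0
  · exact Or.inl hy0
  right
  have h2 : S.J (E ⊓ S.dv y) ≤ J.toAddSubgroup := by
    rw [← S.J_sup]
    refine sup_le hE2 ?_
    intro x hx
    rw [S.mem_J, ← S.dvd_iff_In hy0] at hx
    exact J.mem_of_dvd hx hy
  have h3 : ¬ S.dE (E ⊓ S.dv y) < Nat.find h1 := fun h => hmin h ⟨_, rfl, h2⟩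
  have h4 : S.dE (E - E ⊓ S.dv y) = 0 := by
    have := S.dE_sub (inf_le_left : E ⊓ S.dv y ≤ E)
    omega
  have h5 := S.dE_eq_zero h4
  rw [tsub_eq_zero_iff_le] at h5
  exact h5.trans inf_le_right

end Pool.Agent.T9h5.GG
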