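import Pool.Agent.T9h5.GG.Cnt

/-!
# `LocCount`
-/

set_option autoImplicit false
set_option linter.unusedSectionVars false

namespace Pool.Agent.T9h5.GG

open Finset

theorem crt2 {A : Type} [CommRing A] {a b : A} (h : IsCoprime a b) (x y : A) :
    ∃ t, a ∣ t - x ∧ b ∣ t - y := by
  obtain ⟨p, r, hpr⟩ := h
  refine ⟨x * (r * b) + y * (p * a), ⟨(y - x) * p, ?_⟩, ⟨(x - y) * r, ?_⟩⟩
  · have : x * (r * b) + y * (p * a) - x = x * (p * a + r * b - 1) + (y - x) * (p * a) := by ring
    rw [this, hpr]; ring
  · have : x * (r * b) + y * (p * a) - y = y * (p * a + r * b - 1) + (x - y) * (r * b) := by ring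
    rw [this, hpr]; ring

theorem coprime_of_dvd_sub {A : Type} [CommRing A] {m x y : A} (h : m ∣ x - y)
    (hy : IsCoprime y m) : IsCoprime x m := by
  obtain ⟨t, ht⟩ := h
  have : x = y + m * t := by rw [← ht]; ring
  rw [this]
  exact (IsCoprime.add_mul_left_left_iff).2 hy

namespace Ar

variable {A Z : Type} [CommRing A] [IsDomain A] (S : Ar A Z)

theorem mul_mem_B {x y : A} {n : ℕ} (hx : x ≠ 0) (h : y ∈ S.B n) : x * y ∈ S.B (S.ht x + n) := by
  by_cases hy : y = 0
  · left; rw [hy, mul_zero]
  right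
  rw [S.ht_mul hx hy]
  have := h.resolve_left hy
  omega

theorem of_mul_mem_B {x y : A} {n : ℕ} (hx : x ≠ 0) (h : x * y ∈ S.B (S.ht x + n)) :
    y ∈ S.B n := by
  by_cases hy : y = 0
  · left; exact hy
  right
  have h1 := h.resolve_left (mul_ne_zero hx hy)
  rw [S.ht_mul hx hy] at h1
  omega

end Ar

theorem locCount : LocCount := by
  classical
  intro A Z _ _ S α β α'' c ρ H L E d hα hβ hα'' hco hd hH hc hL hE hbig
  have hα0 := S.mon_ne α hα
  have hβ0 := S.mon_ne β hβ
  have hα''0 := S.mon_ne α'' hα''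
  have hαβ0 : α * β ≠ 0 := mul_ne_zero hα0 hβ0
  have hββ0 : β * β ≠ 0 := mul_ne_zero hβ0 hβ0
  have hM0 : α * (β * β) ≠ 0 := mul_ne_zero hα0 hββ0
  have hcoα : IsCoprime α β := hco.of_isCoprime_of_dvd_left hd
  have hht : S.ht (α * β) = S.ht α + S.ht β := S.ht_mul hα0 hβ0
  have hhtM : S.dE (S.dv (α * (β * β))) = S.δ * S.ht α + 2 * (S.δ * S.ht β) := by
    rw [S.dE_dv' hM0, S.ht_mul hα0 hββ0, S.ht_mul hβ0 hβ0]; ring
  rw [hht] at hbig
  rw [S.mem_Cop] at hc
  obtain ⟨hc1, hc2, hc3⟩ := hc
  have hδL : S.δ * L = S.δ * S.ht α'' + S.δ * d := by rw [← hL]; ring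
  have hδE : S.δ * (E + d) = S.δ * E + S.δ * d := by ring
  have hδab : S.δ * (S.ht α + S.ht β) = S.δ * S.ht α + S.δ * S.ht β := by ring
  have hδEL : S.δ * E ≤ S.δ * L := Nat.mul_le_mul_left _ (by omega)
  -- `g`
  obtain ⟨g, hg, hgE⟩ := S.mon_ex E (by omega)
  -- `x_c`
  obtain ⟨y, hy1, hy2⟩ := S.exists_rep (S.dv α'') (c - β * g) 0 (S.ht β + E) (by
    rw [S.dE_dv' hα''0, Nat.mul_add]; omega)
  rw [sub_zero] at hy1
  rw [← S.dvd_iff_In hα''0] at hy2
  obtain ⟨t, ht⟩ := hy2
  set xc : A := -t with hxc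
  have hyc : y = c - β * g - α'' * xc := by
    rw [hxc, mul_neg, sub_neg_eq_add, ← ht]; ring
  -- the size of the box
  obtain ⟨D1, hD1⟩ : ∃ D1, D1 + L = d + E + S.ht β := by
    refine ⟨d + E + S.ht β - L, Nat.sub_add_cancel ?_⟩
    have : S.δ * L ≤ S.δ * (E + d) := by omega
    have := Nat.le_of_mul_le_mul_left this S.δ_pos
    omega
  have hD1' : S.ht α'' + D1 = S.ht β + E := by omega
  have hδD1 : S.δ * D1 + S.δ * L = S.δ * d + S.δ * E + S.δ * S.ht β := by
    rw [← Nat.mul_add, hD1]; ring
  set F : Z →₀ ℕ := H + S.dv (α * (β * β)) with hF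
  have hdF : S.dE F = S.dE H + (S.δ * S.ht α + 2 * (S.δ * S.ht β)) := by
    rw [hF, S.dE_add, hhtM]
  have hdis : ∀ z, H z = 0 ∨ S.dv (α * (β * β)) z = 0 := by
    intro z
    rcases hH z with h | h
    · exact Or.inl h
    · right
      rw [S.dv_mul _ _ hα0 hβ0, Finsupp.add_apply] at h
      rw [S.dv_mul _ _ hα0 hββ0, S.dv_mul _ _ hβ0 hβ0, Finsupp.add_apply, Finsupp.add_apply]
      omega
  have hInF : ∀ x : A, S.In F x ↔ S.In H x ∧ α ∣ x ∧ β * β ∣ x := by
    intro x
    rw [hF, ← Ar.sup_eq_add hdis, S.In_sup, ← S.dvd_iff_In hM0]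
    refine and_congr_right fun _ => ⟨fun h => ⟨(Dvd.intro _ rfl).trans h,
      (Dvd.intro_left _ rfl).trans h⟩, fun h => ?_⟩
    exact IsCoprime.mul_dvd (hcoα.mul_right hcoα) h.1 h.2
  have hbox : S.dE F + S.c₀ ≤ S.δ * D1 := by
    rw [hdF]; omega
  have h0 := boxCount A Z S F
  set s : Set A := {x ∈ (S.Cop (α * β) d : Set A) | S.In H (x - ρ) ∧ ∃ z ∈ S.Cop (α * β) E,
      c = α'' * x + β * z} with hs
  -- the map to the classes
  have hex : ∀ x : A, ∃ u : A, ∀ z, c = α'' * x + β * z → α ∣ u - x ∧ β ∣ u - z := by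
    intro x
    by_cases h : ∃ z, c = α'' * x + β * z
    · obtain ⟨z, hz⟩ := h
      obtain ⟨u, hu1, hu2⟩ := crt2 hcoα x z
      refine ⟨u, fun z' hz' => ?_⟩
      have : z' = z := by
        have h1 : β * z' = β * z := by
          rw [hz'] at hz; exact add_left_cancel hz
        exact mul_left_cancel₀ hβ0 h1
      rw [this]
      exact ⟨hu1, hu2⟩
    · refine ⟨0, fun z hz => absurd ⟨z, hz⟩ h⟩
  choose Φ hΦ using hex
  have hmain := S.count_cs (S.dv (α * β)) (fun x => IsCoprime x (α * β)) s
    ((Finset.finite_toSet _).subset fun x hx => hx.1) Φ (by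
      rintro x ⟨hx, -, z, hz, hcz⟩
      obtain ⟨h1, h2⟩ := hΦ x z hcz
      rw [Finset.mem_coe, S.mem_Cop] at hx
      rw [S.mem_Cop] at hz
      refine IsCoprime.mul_right ?_ ?_
      · exact coprime_of_dvd_sub h1 (hx.2.2.of_mul_right_left)
      · exact coprime_of_dvd_sub h2 (hz.2.2.of_mul_right_right))
    ({x ∈ (S.Box xc D1 : Set A) | S.In F (x - 0)}.ncard) (by
      intro u hu
      -- `κ`
      have hcoββ : IsCoprime α'' (β * β) := hco.mul_right hco
      obtain ⟨a, b, hab⟩ := hcoββ
      set κ : A := a * (c - β * u) with hκ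
      have hκ2 : ∀ x, β * β ∣ x - κ ↔ β * β ∣ c - β * u - α'' * x := by
        intro x
        have h1 : c - β * u - α'' * x = -(α'' * (x - κ)) + β * β * (b * (c - β * u)) := by
          have : c - β * u = (a * α'' + b * (β * β)) * (c - β * u) := by rw [hab, one_mul]
          rw [hκ]
          linear_combination this
        rw [h1, dvd_add_left (Dvd.intro _ rfl), dvd_neg]
        constructor
        · intro h; exact h.mul_left _
        · intro h
          exact (IsCoprime.dvd_of_dvd_mul_left (IsCoprime.symm ⟨a, b, hab⟩) h)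
      obtain ⟨τ1, hτ1, hτ2⟩ := crt2 (hcoα.mul_right hcoα : IsCoprime α (β * β)) u κ
      obtain ⟨τ, hτH, hτM⟩ := crt A Z S H (S.dv (α * (β * β))) hdis ρ τ1
      rw [← S.dvd_iff_In hM0] at hτM
      have hset : {x ∈ s | S.In (S.dv (α * β)) (Φ x - u)} =
          {x ∈ (S.Box xc D1 : Set A) | S.In F (x - τ)} := by
        ext x
        simp only [Set.mem_ofPred_eq, Finset.mem_coe]
        rw [hInF, S.mem_Box', ← S.dvd_iff_In hαβ0]
        have e1 : S.In H (x - τ) ↔ S.In H (x - ρ) := by
          constructor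
          · intro h
            have := S.In_add h hτH
            rwa [sub_add_sub_cancel] at this
          · intro h
            have := S.In_sub h hτH
            rwa [sub_sub_sub_cancel_right] at this
        have e2 : α ∣ x - τ ↔ α ∣ x - u := by
          have h1 : α ∣ τ - u := by
            have h2 : α ∣ τ - τ1 := (Dvd.intro _ rfl).trans hτM
            have h3 := dvd_add h2 hτ1
            rwa [sub_add_sub_cancel] at h3
          have h4 : x - u = (x - τ) + (τ - u) := by ring
          rw [h4, dvd_add_left h1]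
        have e3 : β * β ∣ x - τ ↔ β * β ∣ c - β * u - α'' * x := by
          rw [← hκ2]
          have h1 : β * β ∣ τ - κ := by
            have h2 : β * β ∣ τ - τ1 := (Dvd.intro_left _ rfl).trans hτM
            have h3 := dvd_add h2 hτ2
            rwa [sub_add_sub_cancel] at h3
          have h4 : x - κ = (x - τ) + (τ - κ) := by ring
          rw [h4, dvd_add_left h1]
        rw [e1, e2, e3]
        constructor
        · rintro ⟨⟨hx, hxH, z, hz, hcz⟩, hu2⟩
          rw [Finset.mem_coe, S.mem_Cop] at hx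
          rw [S.mem_Cop] at hz
          obtain ⟨h1, h2⟩ := hΦ x z hcz
          refine ⟨?_, hxH, ?_, ?_⟩
          · apply S.of_mul_mem_B hα''0
            rw [hD1']
            have h3 : α'' * (x - xc) = y - β * (z - g) := by
              rw [hyc]; linear_combination -hcz
            rw [h3]
            refine (S.B _).sub_mem hy1 (S.mul_mem_B hβ0 ?_)
            rw [S.sub_mem_B]
            exact (S.mon_iff hg hgE z).1 ⟨hz.1, hz.2.1⟩
          · have h3 : α ∣ Φ x - u := (Dvd.intro _ rfl).trans hu2
            have h4 : x - u = (Φ x - u) - (Φ x - x) := by ring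
            rw [h4]; exact dvd_sub h3 h1
          · have h3 : β ∣ Φ x - u := (Dvd.intro_left _ rfl).trans hu2
            have h4 : β ∣ z - u := by
              have h5 : z - u = (Φ x - u) - (Φ x - z) := by ring
              rw [h5]; exact dvd_sub h3 h2
            have h5 : c - β * u - α'' * x = β * (z - u) := by linear_combination hcz
            rw [h5]
            exact mul_dvd_mul_left _ h4
        · rintro ⟨hxB, hxH, hxα, hxβ⟩
          have h1 : β ∣ c - α'' * x := by
            have h2 : c - α'' * x = (c - β * u - α'' * x) + β * u := by ring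
            rw [h2]
            exact dvd_add ((Dvd.intro _ rfl).trans hxβ) (Dvd.intro _ rfl)
          obtain ⟨z, hz⟩ := h1
          have hcz : c = α'' * x + β * z := by rw [← hz]; ring
          have hzu : β ∣ z - u := by
            have h2 : c - β * u - α'' * x = β * (z - u) := by linear_combination hcz
            rw [h2] at hxβ
            exact (mul_dvd_mul_iff_left hβ0).1 hxβ
          have hzB : z - g ∈ S.B E := by
            apply S.of_mul_mem_B hβ0
            have h3 : β * (z - g) = y - α'' * (x - xc) := by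
              rw [hyc]; linear_combination -hcz
            rw [h3]
            refine (S.B _).sub_mem hy1 ?_
            rw [← hD1']
            exact S.mul_mem_B hα''0 hxB
          rw [S.sub_mem_B, ← S.mon_iff hg hgE] at hzB
          have hz0 := S.mon_ne z hzB.1
          have hzβ : IsCoprime z β := coprime_of_dvd_sub hzu hu.of_mul_right_right
          have hzα : IsCoprime z α := by
            have h3 : α ∣ β * z - c := by
              have h4 : β * z - c = -(α'' * x) := by rw [hcz]; ring
              rw [h4, dvd_neg]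
              exact hd.mul_right x
            exact (coprime_of_dvd_sub h3 hc3.of_mul_right_left).of_mul_left_right
          have hbz0 : β * z ≠ 0 := mul_ne_zero hβ0 hz0
          have hhz : S.ht (-(β * z)) < S.ht c := by
            rw [S.ht_neg, S.ht_mul hβ0 hz0, hzB.2, hc2]; exact hE
          have hax : α'' * x = c + -(β * z) := by rw [hcz]; ring
          have hc0 := S.mon_ne c hc1
          have hmx : S.mon (α'' * x) := by
            rw [hax]; exact S.mon_add c _ hc1 (neg_ne_zero.2 hbz0) hhz
          have hxm : S.mon x := S.mon_cancel _ _ hα'' hmx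
          have hx0 := S.mon_ne x hxm
          have hhx : S.ht x = d := by
            have h3 := (S.ht_add_lt hc0 (neg_ne_zero.2 hbz0) hhz).2
            rw [← hax, S.ht_mul hα''0 hx0, hc2] at h3
            omega
          have hxα' : IsCoprime x α := coprime_of_dvd_sub hxα hu.of_mul_right_left
          have hxβ' : IsCoprime x β := by
            have h3 : β ∣ α'' * x - c := by
              have h4 : α'' * x - c = -(β * z) := by rw [hcz]; ring
              rw [h4, dvd_neg]
              exact Dvd.intro _ rfl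
            exact (coprime_of_dvd_sub h3 hc3.of_mul_right_right).of_mul_left_right
          obtain ⟨k1, k2⟩ := hΦ x z hcz
          refine ⟨⟨?_, hxH, z, ?_, hcz⟩, ?_⟩
          · rw [Finset.mem_coe, S.mem_Cop]
            exact ⟨hxm, hhx, hxα'.mul_right hxβ'⟩
          · rw [S.mem_Cop]
            exact ⟨hzB.1, hzB.2, hzα.mul_right hzβ⟩
          · apply IsCoprime.mul_dvd hcoα
            · have h4 : Φ x - u = (Φ x - x) + (x - u) := by ring
              rw [h4]; exact dvd_add k1 hxα
            · have h4 : Φ x - u = (Φ x - z) + (z - u) := by ring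
              rw [h4]; exact dvd_add k2 hzu
      rw [hset]
      have h3 := h0 τ xc D1 hbox
      have h4 := h0 0 xc D1 hbox
      exact Nat.eq_of_mul_eq_mul_right (pow_pos S.q_pos _) (h3.trans h4.symm))
  have h4 := h0 0 xc D1 hbox
  set n := {x ∈ (S.Box xc D1 : Set A) | S.In F (x - 0)}.ncard with hn
  have hcop := S.card_Cop hαβ0 d (by rw [hht]; omega)
  rw [hht] at hcop
  have hφ : (S.cs (S.dv (α * β)) (fun x => IsCoprime x (α * β))).ncard = S.ph (α * β) := rfl
  rw [hφ] at hmain
  rw [hmain]
  apply Nat.eq_of_mul_eq_mul_right (pow_pos S.q_pos (S.δ * (S.ht α + S.ht β) + S.c))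
  rw [hcop]
  obtain ⟨e, he⟩ : ∃ e, S.δ * (L - E) = e + S.δ * S.ht β := by
    refine ⟨S.δ * (L - E) - S.δ * S.ht β, (Nat.sub_add_cancel ?_).symm⟩
    exact Nat.mul_le_mul_left _ (by omega)
  have hLE : S.δ * (L - E) + S.δ * E = S.δ * L := by
    rw [← Nat.mul_add]; congr 1; omega
  calc S.ph (α * β) * n * S.q ^ (S.dE H + S.δ * (L - E)) * S.q ^ (S.δ * (S.ht α + S.ht β) + S.c)
      = S.ph (α * β) * (n * S.q ^ (S.dE F + S.c)) * S.q ^ e := by
        rw [hdF, he, mul_assoc, ← pow_add, mul_assoc, mul_assoc, mul_assoc, ← pow_add]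
        congr 3
        ring
    _ = S.ph (α * β) * S.q ^ (S.δ * d) := by
        rw [h4, mul_assoc, ← pow_add]
        congr 2
        omega

end Pool.Agent.T9h5.GG
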