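import Pool.Agent.T9h42.GG.Spec4
import Pool.Agent.T9h5.GG.Loc
import Pool.Agent.T9h84.GG.C3
import Pool.Agent.T9h42.GF.C2

/-!
# `CharAw` (port of `T9h42.GF.C2.char_aw`)
-/

set_option autoImplicit false
set_option linter.unusedSectionVars false

namespace Pool.Agent.T9h5.GG

open Finset
open Pool.Agent.T9h42.GF (ncard_sep ncard_pi sum_pi_succ)
open Pool.Agent.T9h84.GG (sum_aw)

section mom

variable {A Z : Type} [CommRing A] [IsDomain A] (S : Ar A Z)

open Classical in
/-- equidistribution of a free slot, with the local conditions. -/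
theorem loc_count' (hL : LocCount) (α β : A) (hα : S.mon α) (hβ : S.mon β)
    (α₁ : A) (hα₁ : S.mon α₁) (hcop : IsCoprime α₁ β) (hdvd : α ∣ α₁) (L E d n : ℕ)
    (hdeg : S.ht α₁ + (n + 1) * d = L) (hE : S.ht β + E < L) (c : A)
    (hc : c ∈ S.Cop (α * β) L) (H : Z →₀ ℕ) (ρ : A) (hhM : S.Cp H (α * β))
    (hd : S.δ * L + S.dE H + S.δ * S.ht (α * β) + S.c₀ ≤ S.δ * (E + d)) (v : Fin n → A)
    (hv : v ∈ Fintype.piFinset (fun _ : Fin n => S.Cop (α * β) d)) :
    (((S.Cop (α * β) d).filter (fun x => S.In H (x - ρ) ∧ Ph S α β E α₁ c (∏ i, (Fin.cons x v :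
      Fin (n + 1) → A) i))).card : ℝ) * (S.q : ℝ) ^ (S.dE H + S.δ * (L - E)) =
      (S.Cop (α * β) d).card := by
  rw [Fintype.mem_piFinset] at hv
  have hp := Pool.Agent.T9h84.GG.prod_mem_cop S hv
  rw [S.mem_Cop] at hp
  obtain ⟨hp1, hp2, hp3⟩ := hp
  have hcβ : IsCoprime (α₁ * ∏ i, v i) β :=
    IsCoprime.mul_left hcop (hp3.of_isCoprime_of_dvd_right (dvd_mul_left β α))
  have h1 := hL A Z S α β (α₁ * ∏ i, v i) c ρ H L E d hα hβ (S.mon_mul _ _ hα₁ hp1) hcβ
    (hdvd.trans (dvd_mul_right _ _)) hhM hc (by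
      rw [S.ht_mul (S.mon_ne _ hα₁) (S.mon_ne _ hp1), hp2, ← hdeg]
      ring) hE hd
  rw [ncard_sep] at h1
  have h2 : (S.Cop (α * β) d).filter (fun x => S.In H (x - ρ) ∧ Ph S α β E α₁ c
      (∏ i, (Fin.cons x v : Fin (n + 1) → A) i)) =
      (S.Cop (α * β) d).filter (fun x => S.In H (x - ρ) ∧
        ∃ z ∈ S.Cop (α * β) E, c = (α₁ * ∏ i, v i) * x + β * z) := by
    refine filter_congr fun x _ => ?_
    rw [Fin.prod_univ_succ]
    simp only [Fin.cons_zero, Fin.cons_succ, Ph]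
    constructor
    · rintro ⟨h3, z, hz, h4⟩
      exact ⟨h3, z, hz, by rw [h4]; ring⟩
    · rintro ⟨h3, z, hz, h4⟩
      exact ⟨h3, z, hz, by rw [h4]; ring⟩
  rw [h2]
  have h1' := congrArg (Nat.cast (R := ℝ)) h1
  push_cast at h1'
  convert h1'
  rfl

open Classical in
/-- character sums. -/
theorem char_aw (hL : LocCount) (hDC : DivCount) (hDP : DivProd)
    (α β α₁ : A) (hα : S.mon α) (hβ : S.mon β)
    (hα₁ : S.mon α₁) (hcop : IsCoprime α₁ β) (hdvd : α ∣ α₁) (L E d n : ℕ)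
    (hdeg : S.ht α₁ + (n + 1) * d = L) (hE : S.ht β + E < L) (c : A)
    (hc : c ∈ S.Cop (α * β) L) (χ : AddChar A ℂ) (H : Z →₀ ℕ) (hχ : S.Cond χ H)
    (hhM : S.Cp H (α * β))
    (hd : S.δ * L + S.dE H + S.δ * S.ht (α * β) + S.c₀ ≤ S.δ * (E + d))
    (hd' : S.δ * S.ht (α * β) + S.dE H + S.c₀ ≤ S.δ * d) :
    ‖∑ f ∈ S.Cop (α * β) ((n + 1) * d), ((aw S α β E d (n + 1) α₁ c f : ℝ) : ℂ) * χ f‖ ≤
      ((dvs H).card : ℝ) ^ n * ((S.Cop (α * β) d).card : ℝ) ^ (n + 1) /
        ((S.q : ℝ) ^ (S.δ * (L - E)) * (S.q : ℝ) ^ S.dE H) := by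
  set q : ℝ := (S.q : ℝ) with hq
  have hq0 : 0 < q := by rw [hq]; exact_mod_cast S.q_pos
  have hX := (S.Cop (α * β) d).card.cast_nonneg (α := ℝ)
  have h1 := sum_aw S α β E d (n + 1) α₁ c (fun f => χ f)
  have h1' : ∑ f ∈ S.Cop (α * β) ((n + 1) * d), ((aw S α β E d (n + 1) α₁ c f : ℝ) : ℂ) * χ f =
      ∑ f ∈ S.Cop (α * β) ((n + 1) * d), aw S α β E d (n + 1) α₁ c f • χ f := by
    refine sum_congr rfl fun f _ => ?_
    rw [Complex.real_smul]
  rw [h1', h1, sum_pi_succ]
  let := Fintype.ofFinite (A ⧸ S.J H)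
  have hcardQ : Fintype.card (A ⧸ S.J H) = S.q ^ S.dE H := by
    rw [← S.index_J, AddSubgroup.index_eq_card, Nat.card_eq_fintype_card]
  -- representatives
  have hout : ∀ ξ : A ⧸ S.J H, S.cm H ξ.out = ξ := fun ξ => QuotientAddGroup.out_eq' ξ
  have hch : ∀ w x y : A, S.cm H x = S.cm H y → χ (w * x) = χ (w * y) := by
    intro w x y hxy
    rw [S.cm_eq] at hxy
    have h2 : w * x = w * y + (x - y) * w := by ring
    rw [h2, AddChar.map_add_eq_mul, (hχ (x - y)).2 hxy w, mul_one]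
  -- inner sums
  have h2 : ∀ v ∈ Fintype.piFinset (fun _ : Fin n => S.Cop (α * β) d),
      ‖∑ x ∈ S.Cop (α * β) d, if Ph S α β E α₁ c (∏ i, (Fin.cons x v : Fin (n + 1) → A) i)
        then χ (∏ i, (Fin.cons x v : Fin (n + 1) → A) i) else 0‖ ≤
      if H ≤ S.dv (∏ i, v i) then (S.Cop (α * β) d).card / q ^ (S.δ * (L - E)) else 0 := by
    intro v hv
    have hv' := hv
    rw [Fintype.mem_piFinset] at hv'
    have hp0 : (∏ i, v i) ≠ 0 :=
      S.mon_ne _ (S.mem_Cop.1 (Pool.Agent.T9h84.GG.prod_mem_cop S hv')).1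
    -- group by residues modulo `H`
    have hgr : ∑ x ∈ S.Cop (α * β) d, (if Ph S α β E α₁ c (∏ i, (Fin.cons x v :
        Fin (n + 1) → A) i) then χ (∏ i, (Fin.cons x v : Fin (n + 1) → A) i) else 0) =
      ∑ ξ : A ⧸ S.J H, χ ((∏ i, v i) * ξ.out) *
        (((S.Cop (α * β) d).card / (q ^ (S.δ * (L - E)) * q ^ S.dE H) : ℝ) : ℂ) := by
      rw [← sum_fiberwise_of_maps_to (s := S.Cop (α * β) d) (g := fun x => S.cm H x)
        (t := (univ : Finset (A ⧸ S.J H))) (fun x _ => mem_univ _)]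
      refine sum_congr rfl fun ξ _ => ?_
      have h3 := loc_count' S hL α β hα hβ α₁ hα₁ hcop hdvd L E d n hdeg hE c hc H ξ.out
        hhM hd v hv
      have h4 : (((S.Cop (α * β) d).filter (fun x => S.In H (x - ξ.out) ∧
          Ph S α β E α₁ c (∏ i, (Fin.cons x v : Fin (n + 1) → A) i))).card : ℝ) =
          (S.Cop (α * β) d).card / (q ^ (S.δ * (L - E)) * q ^ S.dE H) := by
        rw [eq_div_iff (by positivity), ← h3, pow_add]
        ring
      have h5 : ∀ x, S.cm H x = ξ ↔ S.In H (x - ξ.out) := by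
        intro x
        rw [← S.cm_eq, hout]
      rw [sum_ite, sum_const_zero, add_zero, filter_filter]
      have h6 : ∀ x ∈ (S.Cop (α * β) d).filter (fun x => S.cm H x = ξ ∧ Ph S α β E α₁ c
          (∏ i, (Fin.cons x v : Fin (n + 1) → A) i)),
          χ (∏ i, (Fin.cons x v : Fin (n + 1) → A) i) = χ ((∏ i, v i) * ξ.out) := by
        intro x hx
        rw [mem_filter] at hx
        rw [Fin.prod_univ_succ]
        simp only [Fin.cons_zero, Fin.cons_succ]
        rw [mul_comm]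
        exact hch _ _ _ (hx.2.1.trans (hout ξ).symm)
      rw [sum_congr rfl h6, sum_const, nsmul_eq_mul, mul_comm]
      congr 1
      rw [← h4]
      push_cast
      congr 2
      refine filter_congr fun x _ => ?_
      rw [h5]
    rw [hgr, ← sum_mul]
    by_cases hdv : H ≤ S.dv (∏ i, v i)
    · rw [if_pos hdv]
      have h8 : ∀ ξ ∈ (univ : Finset (A ⧸ S.J H)), χ ((∏ i, v i) * ξ.out) = 1 := by
        intro ξ _
        exact (hχ _).2 (Or.inr hdv) _
      rw [sum_congr rfl h8, sum_const, card_univ, hcardQ, nsmul_eq_mul, mul_one]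
      have h9 : (((S.q ^ S.dE H : ℕ) : ℂ)) *
          (((S.Cop (α * β) d).card / (q ^ (S.δ * (L - E)) * q ^ S.dE H) : ℝ) : ℂ) =
          (((S.Cop (α * β) d).card / q ^ (S.δ * (L - E)) : ℝ) : ℂ) := by
        have : (((S.q ^ S.dE H : ℕ) : ℂ)) = ((q ^ S.dE H : ℝ) : ℂ) := by
          rw [hq]
          push_cast
          rfl
        rw [this, ← Complex.ofReal_mul]
        congr 1
        field_simp
      rw [h9, Complex.norm_real, Real.norm_of_nonneg (by positivity)]
    · rw [if_neg hdv]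
      -- the sum of a nontrivial character over the residues
      have h10 : ∃ g, χ ((∏ i, v i) * g) ≠ 1 := by
        by_contra hcon
        push Not at hcon
        exact hdv (((hχ _).1 hcon).resolve_left hp0)
      obtain ⟨g, hg⟩ := h10
      have h11 : ∑ ξ : A ⧸ S.J H, χ ((∏ i, v i) * ξ.out) = 0 := by
        set T := ∑ ξ : A ⧸ S.J H, χ ((∏ i, v i) * ξ.out) with hT
        have h12 : T = χ ((∏ i, v i) * g) * T := by
          conv_lhs => rw [hT]
          rw [← Equiv.sum_comp (Equiv.addLeft (S.cm H g)) (fun ξ => χ ((∏ i, v i) * ξ.out)),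
            hT, mul_sum]
          refine sum_congr rfl fun ξ _ => ?_
          rw [← AddChar.map_add_eq_mul, ← mul_add]
          apply hch
          rw [hout]
          show S.cm H g + ξ = S.cm H (g + ξ.out)
          have : S.cm H (g + ξ.out) = S.cm H g + S.cm H ξ.out := rfl
          rw [this, hout]
        have h14 : (1 - χ ((∏ i, v i) * g)) * T = 0 := by
          rw [sub_mul, one_mul, ← h12, sub_self]
        rcases mul_eq_zero.1 h14 with h15 | h15
        · exact absurd (sub_eq_zero.1 h15).symm hg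
        · exact h15
      rw [h11, zero_mul, norm_zero]
  refine (norm_sum_le _ _).trans ((sum_le_sum h2).trans ?_)
  rw [← sum_filter, sum_const, nsmul_eq_mul]
  have hM : (α * β) ≠ 0 := mul_ne_zero (S.mon_ne _ hα) (S.mon_ne _ hβ)
  have h20 := hDP A Z S H (S.Cop (α * β) d) 1 n (by
    intro h0
    exact S.mon_ne _ (S.mem_Cop.1 h0).1 rfl) zero_le_one (fun F hFH => by
    have hcpF : S.Cp F (α * β) := by
      intro z
      rcases hhM z with h | h
      · left
        have h3 := hFH z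
        rw [h] at h3
        exact Nat.le_zero.1 h3
      · exact Or.inr h
    have hdF := S.dE_mono hFH
    have h21 := (hDC A Z S (α * β) hM F d hcpF (by omega)).1 (by omega)
    rw [one_mul]
    exact_mod_cast h21.le)
  rw [ncard_pi, one_pow, mul_one] at h20
  rw [← mul_div_assoc, div_le_div_iff₀ (by positivity) (by positivity)]
  have h22 : 0 ≤ (S.Cop (α * β) d).card * q ^ (S.δ * (L - E)) := by positivity
  calc _ = ((((Fintype.piFinset (fun _ : Fin n => S.Cop (α * β) d)).filter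
        (fun v => H ≤ S.dv (∏ i, v i))).card : ℝ) * q ^ S.dE H) *
          ((S.Cop (α * β) d).card * q ^ (S.δ * (L - E))) := by ring
    _ ≤ (((dvs H).card : ℝ) ^ n * ((S.Cop (α * β) d).card : ℝ) ^ n) *
          ((S.Cop (α * β) d).card * q ^ (S.δ * (L - E))) := mul_le_mul_of_nonneg_right (by convert h20; rfl) h22
    _ = _ := by ring

end mom

theorem charAwOf : Pool.Agent.T9h42.GG.CharAwOf := by
  intro _ hL _ hDC hDP A Z _ _ S α β α₁ hα hβ hα₁ hcop hdvd L E d n hdeg hE c hc χ H hχ hH hd hd'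
  exact char_aw S hL hDC hDP α β α₁ hα hβ hα₁ hcop hdvd L E d n hdeg hE c hc χ H hχ hH hd hd'

end Pool.Agent.T9h5.GG
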