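import Pool.Agent.T9h5.GG.Basic

/-!
# Counting elements prime to `M`
-/

set_option autoImplicit false
set_option linter.unusedSectionVars false

namespace Pool.Agent.T9h5.GG

open Finset

theorem ncard_fiber {T Y : Type} (s : Set T) (hs : s.Finite) (Φ : T → Y) (Q : Set Y)
    (hQ : Q.Finite) (h1 : ∀ x ∈ s, Φ x ∈ Q) (n : ℕ) (h2 : ∀ y ∈ Q, {x ∈ s | Φ x = y}.ncard = n) :
    s.ncard = Q.ncard * n := by
  classical
  rw [Set.ncard_eq_toFinset_card s hs, Set.ncard_eq_toFinset_card Q hQ]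
  rw [Finset.card_eq_sum_card_fiberwise (f := Φ) (t := hQ.toFinset)]
  · rw [← smul_eq_mul, ← Finset.sum_const]
    refine Finset.sum_congr rfl fun y hy => ?_
    rw [← h2 y (hQ.mem_toFinset.1 hy), ← Set.ncard_coe_finset]
    congr 1
    ext x
    simp
  · intro x hx
    rw [Finset.mem_coe, hs.mem_toFinset] at hx
    rw [Finset.mem_coe, hQ.mem_toFinset]
    exact h1 x hx

namespace Ar

variable {A Z : Type} [CommRing A] [IsDomain A] (S : Ar A Z)

/-- the class of `x` modulo `E` -/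
def cm (E : Z →₀ ℕ) (x : A) : A ⧸ S.J E := QuotientAddGroup.mk x

theorem cm_eq {E : Z →₀ ℕ} {x y : A} : S.cm E x = S.cm E y ↔ S.In E (x - y) := by
  rw [cm, cm, QuotientAddGroup.eq, mem_J]
  constructor
  · intro h
    have := S.In_neg h
    rwa [neg_add, neg_neg, ← sub_eq_add_neg] at this
  · intro h
    have := S.In_neg h
    rwa [neg_sub, sub_eq_neg_add] at this

instance (E : Z →₀ ℕ) : Finite (A ⧸ S.J E) := by
  have : (S.J E).index ≠ 0 := by rw [S.index_J]; exact (pow_pos S.q_pos _).ne'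
  haveI : (S.J E).FiniteIndex := ⟨this⟩
  exact AddSubgroup.finite_quotient_of_finiteIndex

/-- the classes modulo `E` with the property `P` -/
def cs (E : Z →₀ ℕ) (P : A → Prop) : Set (A ⧸ S.J E) := {ξ | ∃ x, P x ∧ S.cm E x = ξ}

theorem count_cs (E : Z →₀ ℕ) (P : A → Prop) (s : Set A) (hs : s.Finite) (Φ : A → A)
    (h1 : ∀ x ∈ s, P (Φ x)) (n : ℕ)
    (h2 : ∀ u, P u → {x ∈ s | S.In E (Φ x - u)}.ncard = n) :
    s.ncard = (S.cs E P).ncard * n := by
  refine ncard_fiber s hs (fun x => S.cm E (Φ x)) (S.cs E P) (Set.toFinite _) ?_ n ?_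
  · intro x hx
    exact ⟨Φ x, h1 x hx, rfl⟩
  · rintro ξ ⟨u, hu, rfl⟩
    rw [← h2 u hu]
    congr 1
    ext x
    simp only [Set.mem_ofPred_eq, cm_eq]

theorem cs_pos (E : Z →₀ ℕ) (P : A → Prop) {x : A} (hx : P x) : 0 < (S.cs E P).ncard := by
  rw [Set.ncard_pos (Set.toFinite _)]
  exact ⟨_, x, hx, rfl⟩

/-- number of invertible classes modulo `M` -/
noncomputable def ph (M : A) : ℕ := (S.cs (S.dv M) (fun x => IsCoprime x M)).ncard

theorem ph_pos (M : A) : 0 < S.ph M := S.cs_pos _ _ (x := 1) isCoprime_one_left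

theorem Box_finset_finite (g : A) (D : ℕ) (p : A → Prop) :
    {x ∈ (S.Box g D : Set A) | p x}.Finite :=
  (Finset.finite_toSet _).subset fun _ h => h.1

theorem coprime_congr {M : A} (hM : M ≠ 0) {x y : A} (h : S.In (S.dv M) (x - y))
    (hy : IsCoprime y M) : IsCoprime x M := by
  rw [← S.dvd_iff_In hM] at h
  obtain ⟨t, ht⟩ := h
  have : x = y + M * t := by rw [← ht]; ring
  rw [this]
  exact (IsCoprime.add_mul_left_left_iff).2 hy

theorem box_cop {M : A} (hM : M ≠ 0) (g : A) (D : ℕ) (h : S.δ * S.ht M + S.c₀ ≤ S.δ * D) :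
    {x ∈ (S.Box g D : Set A) | IsCoprime x M}.ncard * S.q ^ (S.δ * S.ht M + S.c) =
      S.ph M * S.q ^ (S.δ * D) := by
  have hE : S.dE (S.dv M) = S.δ * S.ht M := S.dE_dv' hM
  have h0 := boxCount A Z S (S.dv M)
  rw [hE] at h0
  have h1 := S.count_cs (S.dv M) (fun x => IsCoprime x M) {x ∈ (S.Box g D : Set A) | IsCoprime x M}
    (S.Box_finset_finite g D _) id (fun x hx => hx.2)
    ({x ∈ (S.Box g D : Set A) | S.In (S.dv M) (x - 0)}.ncard) (by
      intro u hu
      have h2 : {x ∈ {x ∈ (S.Box g D : Set A) | IsCoprime x M} | S.In (S.dv M) (id x - u)} =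
          {x ∈ (S.Box g D : Set A) | S.In (S.dv M) (x - u)} := by
        ext x
        simp only [Set.mem_ofPred_eq, id]
        constructor
        · rintro ⟨⟨h1, h2⟩, h3⟩
          exact ⟨h1, h3⟩
        · rintro ⟨h1, h3⟩
          exact ⟨⟨h1, S.coprime_congr hM h3 hu⟩, h3⟩
      rw [h2]
      have h3 := h0 u g D h
      have h4 := h0 0 g D h
      exact Nat.eq_of_mul_eq_mul_right (pow_pos S.q_pos _) (h3.trans h4.symm))
  rw [h1, mul_assoc, h0 0 g D h]
  rfl

end Ar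

theorem boxCop : BoxCop := by
  intro A Z _ _ S M hM
  refine ⟨S.ph M, S.ph_pos M, ?_⟩
  intro g w D h
  rw [← S.box_cop hM (g - w) D h]
  congr 1
  have h1 : {x ∈ (S.Box g D : Set A) | IsCoprime (x - w) M} =
      (fun y => y + w) '' {x ∈ (S.Box (g - w) D : Set A) | IsCoprime x M} := by
    ext x
    simp only [Set.mem_ofPred_eq, Set.mem_image, Finset.mem_coe, S.mem_Box']
    constructor
    · rintro ⟨h1, h2⟩
      refine ⟨x - w, ⟨?_, h2⟩, by ring⟩
      have : x - w - (g - w) = x - g := by ring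
      rwa [this]
    · rintro ⟨y, ⟨h1, h2⟩, rfl⟩
      have h3 : y + w - g = y - (g - w) := by ring
      have h4 : y + w - w = y := by ring
      rw [h3, h4]
      exact ⟨h1, h2⟩
  rw [h1]
  exact Set.ncard_image_of_injective _ (fun a b hab => add_right_cancel hab)

namespace Ar

variable {A Z : Type} [CommRing A] [IsDomain A] (S : Ar A Z)

theorem Cop_eq {g : A} {D : ℕ} (hg : S.mon g) (hD : S.ht g = D) (M : A) :
    (S.Cop M D : Set A) = {x ∈ (S.Box g D : Set A) | IsCoprime x M} := by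
  ext x
  simp only [Set.mem_ofPred_eq, Finset.mem_coe, S.mem_Box, S.mem_Cop]
  rw [← S.mon_iff hg hD]
  tauto

theorem card_Cop {M : A} (hM : M ≠ 0) (D : ℕ) (h : S.δ * S.ht M + S.c₀ ≤ S.δ * D) :
    (S.Cop M D).card * S.q ^ (S.δ * S.ht M + S.c) = S.ph M * S.q ^ (S.δ * D) := by
  obtain ⟨g, hg, hD⟩ := S.mon_ex D ((Nat.le_add_left _ _).trans h)
  rw [← S.box_cop hM g D h, ← S.Cop_eq hg hD, Set.ncard_coe_finset]

theorem sup_eq_add {E F : Z →₀ ℕ} (h : ∀ z, E z = 0 ∨ F z = 0) : E ⊔ F = E + F := by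
  ext z
  rw [Finsupp.sup_apply, Finsupp.add_apply]
  rcases h z with h | h <;> simp [h]

/-- count with an additional divisibility -/
theorem box_cop_div {M : A} (hM : M ≠ 0) (E : Z →₀ ℕ) (hE : S.Cp E M) (g : A) (D : ℕ)
    (h : S.δ * S.ht M + S.dE E + S.c₀ ≤ S.δ * D) :
    {x ∈ (S.Box g D : Set A) | IsCoprime x M ∧ S.In E x}.ncard *
      S.q ^ (S.δ * S.ht M + S.dE E + S.c) = S.ph M * S.q ^ (S.δ * D) := by
  have hF : S.dE (E + S.dv M) = S.δ * S.ht M + S.dE E := by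
    rw [dE_add, S.dE_dv' hM, Nat.add_comm]
  have h0 := boxCount A Z S (E + S.dv M)
  rw [hF] at h0
  have h1 := S.count_cs (S.dv M) (fun x => IsCoprime x M)
    {x ∈ (S.Box g D : Set A) | IsCoprime x M ∧ S.In E x}
    (S.Box_finset_finite g D _) id (fun x hx => hx.2.1)
    ({x ∈ (S.Box g D : Set A) | S.In (E + S.dv M) (x - 0)}.ncard) (by
      intro u hu
      obtain ⟨ρ, hρ1, hρ2⟩ := crt A Z S E (S.dv M) hE 0 u
      have h2 : {x ∈ {x ∈ (S.Box g D : Set A) | IsCoprime x M ∧ S.In E x} |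
          S.In (S.dv M) (id x - u)} =
          {x ∈ (S.Box g D : Set A) | S.In (E + S.dv M) (x - ρ)} := by
        ext x
        simp only [Set.mem_ofPred_eq, id]
        rw [← sup_eq_add hE, S.In_sup]
        rw [sub_zero] at hρ1
        constructor
        · rintro ⟨⟨h1, h2, h4⟩, h3⟩
          refine ⟨h1, S.In_sub h4 hρ1, ?_⟩
          have h5 := S.In_sub h3 hρ2
          have h6 : x - ρ = x - u - (ρ - u) := by ring
          rwa [h6]
        · rintro ⟨h1, h2, h3⟩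
          have h4 : S.In (S.dv M) (x - u) := by
            have h5 := S.In_add h3 hρ2
            have h6 : x - u = x - ρ + (ρ - u) := by ring
            rwa [h6]
          refine ⟨⟨h1, S.coprime_congr hM h4 hu, ?_⟩, h4⟩
          have h5 := S.In_add h2 hρ1
          rwa [sub_add_cancel] at h5
      rw [h2]
      have h3 := h0 ρ g D h
      have h4 := h0 0 g D h
      exact Nat.eq_of_mul_eq_mul_right (pow_pos S.q_pos _) (h3.trans h4.symm))
  rw [h1, mul_assoc, h0 0 g D h]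
  rfl

/-- elements of height `< D` divisible by `E`: upper bound -/
theorem card_le_of_le (E : Z →₀ ℕ) (D : ℕ) (h : S.dE E ≤ S.δ * D) :
    {x | x ∈ S.B D ∧ S.In E x}.ncard * S.q ^ S.dE E ≤ S.q ^ (S.δ * D + S.c₀ + S.δ - S.c) ∧
      S.c ≤ S.c₀ + S.δ + S.δ * D := by
  obtain ⟨n, hn1, hn2, hn3⟩ : ∃ n, D ≤ n ∧ S.dE E + S.c₀ ≤ S.δ * n ∧
      S.δ * n ≤ S.δ * D + S.c₀ + S.δ := by
    refine ⟨D + (S.c₀ / S.δ + 1), Nat.le_add_right _ _, ?_, ?_⟩
    · have := (Nat.lt_mul_div_succ S.c₀ S.δ_pos).le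
      rw [Nat.mul_add]
      omega
    · have := Nat.mul_div_le S.c₀ S.δ
      rw [Nat.mul_add, Nat.mul_add, mul_one]
      omega
  have h1 := S.box_B' E n hn2
  have h2 := S.c_le E n hn2
  have h3 : {x | x ∈ S.B D ∧ S.In E x}.ncard ≤ {x | x ∈ S.B n ∧ S.In E x}.ncard :=
    Set.ncard_le_ncard (fun x hx => ⟨S.B_mono hn1 hx.1, hx.2⟩)
      ((S.B_finite n).subset fun x hx => hx.1)
  refine ⟨?_, by omega⟩
  calc {x | x ∈ S.B D ∧ S.In E x}.ncard * S.q ^ S.dE E
      ≤ S.q ^ (S.δ * n - S.dE E - S.c) * S.q ^ S.dE E := by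
        rw [← h1]; exact Nat.mul_le_mul_right _ h3
    _ = S.q ^ (S.δ * n - S.c) := by
        rw [← pow_add]; congr 1; omega
    _ ≤ _ := Nat.pow_le_pow_right S.q_pos (by omega)

end Ar

theorem divCount : DivCount := by
  intro A Z _ _ S M hM E D hE hD
  obtain ⟨g, hg, hgD⟩ := S.mon_ex D ((Nat.le_add_left _ _).trans hD)
  have hc := S.card_Cop hM D hD
  have h0 : {x ∈ (S.Cop M D : Set A) | E ≤ S.dv x} =
      {x ∈ (S.Box g D : Set A) | IsCoprime x M ∧ S.In E x} := by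
    rw [S.Cop_eq hg hgD]
    ext x
    simp only [Set.mem_ofPred_eq]
    constructor
    · rintro ⟨⟨h1, h2⟩, h3⟩
      exact ⟨h1, h2, Or.inr h3⟩
    · rintro ⟨h1, h2, h3⟩
      refine ⟨⟨h1, h2⟩, h3.resolve_left ?_⟩
      rw [Finset.mem_coe, S.mem_Box, ← S.mon_iff hg hgD] at h1
      exact S.mon_ne x h1.1
  constructor
  · intro h
    have h1 := S.box_cop_div hM E hE g D h
    rw [h0]
    have h2 : S.q ^ (S.δ * S.ht M + S.dE E + S.c) =
        S.q ^ S.dE E * S.q ^ (S.δ * S.ht M + S.c) := by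
      rw [← pow_add]; congr 1; omega
    rw [h2, ← mul_assoc] at h1
    exact Nat.eq_of_mul_eq_mul_right (pow_pos S.q_pos _) (h1.trans hc.symm)
  · by_cases hne : ({x ∈ (S.Cop M D : Set A) | E ≤ S.dv x}).Nonempty
    · obtain ⟨x₀, hx₀, hx₀E⟩ := hne
      rw [Finset.mem_coe, S.mem_Cop] at hx₀
      have hx₀0 := S.mon_ne x₀ hx₀.1
      have h1 : S.dE E ≤ S.δ * D := by
        rw [← hx₀.2.1, ← S.dE_dv' hx₀0]
        exact S.dE_mono hx₀E
      obtain ⟨h2, h3⟩ := S.card_le_of_le E D h1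
      have h4 : {x ∈ (S.Cop M D : Set A) | E ≤ S.dv x}.ncard ≤
          {x | x ∈ S.B D ∧ S.In E x}.ncard := by
        refine Set.ncard_le_ncard_of_injOn (fun x => x - x₀) ?_ ?_
          ((S.B_finite D).subset fun x hx => hx.1)
        · intro x hx
          obtain ⟨hx, hxE⟩ := hx
          rw [Finset.mem_coe, S.mem_Cop] at hx
          refine ⟨?_, S.In_sub (Or.inr hxE) (Or.inr hx₀E)⟩
          rw [S.sub_mem_B]
          exact (S.mon_iff hx₀.1 hx₀.2.1 x).1 ⟨hx.1, hx.2.1⟩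
        · intro x _ y _ h
          exact sub_left_injective h
      have h5 := S.ph_pos M
      have h6 : S.q ^ (S.δ * D) ≤ (S.Cop M D).card * S.q ^ (S.δ * S.ht M + S.c) := by
        rw [hc]
        exact Nat.le_mul_of_pos_left _ h5
      have h7 : {x ∈ (S.Cop M D : Set A) | E ≤ S.dv x}.ncard * S.q ^ S.dE E * S.q ^ S.c ≤
          S.q ^ (S.δ * S.ht M + S.c₀ + S.δ) * (S.Cop M D).card * S.q ^ S.c := by
        calc {x ∈ (S.Cop M D : Set A) | E ≤ S.dv x}.ncard * S.q ^ S.dE E * S.q ^ S.c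
            ≤ S.q ^ (S.δ * D + S.c₀ + S.δ - S.c) * S.q ^ S.c :=
              Nat.mul_le_mul_right _ ((Nat.mul_le_mul_right _ h4).trans h2)
          _ = S.q ^ (S.δ * D) * S.q ^ (S.c₀ + S.δ) := by
              rw [← pow_add, ← pow_add]; congr 1; omega
          _ ≤ (S.Cop M D).card * S.q ^ (S.δ * S.ht M + S.c) * S.q ^ (S.c₀ + S.δ) :=
              Nat.mul_le_mul_right _ h6
          _ = _ := by
              rw [Nat.add_assoc, pow_add, pow_add]; ring
      exact Nat.le_of_mul_le_mul_right h7 (pow_pos S.q_pos _)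
    · rw [Set.not_nonempty_iff_eq_empty] at hne
      rw [hne, Set.ncard_empty, Nat.zero_mul]
      exact Nat.zero_le _

end Pool.Agent.T9h5.GG
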