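import Pool.Agent.T9h5.GG.Cnt
import Pool.Agent.T9h73.GF.Sieve

/-!
# The large sieve inequality over `A` (port of `T9h73.GF.Sieve`)
-/

set_option autoImplicit false
set_option linter.unusedSectionVars false

namespace Pool.Agent.T9h5.GG

open Finset
open Pool.Agent.T9h73.GF (parseval)

section chars

variable {A Z : Type} [CommRing A] [IsDomain A] (S : Ar A Z)

theorem card_quot (E : Z →₀ ℕ) [Fintype (A ⧸ S.J E)] :
    Fintype.card (A ⧸ S.J E) = S.q ^ S.dE E := by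
  rw [← S.index_J, AddSubgroup.index_eq_card, Nat.card_eq_fintype_card]

/-- the pull back of a character -/
noncomputable def pull (E : Z →₀ ℕ) (ψ : AddChar (A ⧸ S.J E) ℂ) : AddChar A ℂ :=
  ψ.compAddMonoidHom (QuotientAddGroup.mk' (S.J E))

theorem pull_apply (E : Z →₀ ℕ) (ψ : AddChar (A ⧸ S.J E) ℂ) (f : A) :
    pull S E ψ f = ψ (S.cm E f) := rfl

theorem pull_inj (E : Z →₀ ℕ) : Function.Injective (pull S E) := by
  intro ψ ψ' e
  ext x
  obtain ⟨f, rfl⟩ := QuotientAddGroup.mk_surjective x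
  exact DFunLike.congr_fun e f

theorem exists_pull {E : Z →₀ ℕ} {χ : AddChar A ℂ} (hχ : ∀ h, S.In E h → χ h = 1) :
    ∃ ψ, pull S E ψ = χ := by
  have hs : Function.Surjective (S.cm E) := QuotientAddGroup.mk_surjective
  have key : ∀ f g, S.cm E f = S.cm E g → χ f = χ g := by
    intro f g e
    rw [S.cm_eq] at e
    have : f = (f - g) + g := by ring
    rw [this, AddChar.map_add_eq_mul, hχ _ e, one_mul]
  have h0 : S.cm E 0 = 0 := rfl
  have hadd : ∀ x y, S.cm E (x + y) = S.cm E x + S.cm E y := fun _ _ => rfl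
  refine ⟨⟨fun x => χ (Function.surjInv hs x), ?_, ?_⟩, ?_⟩
  · have : χ (Function.surjInv hs 0) = χ 0 := key _ _ (by rw [Function.surjInv_eq hs, h0])
    rw [this, AddChar.map_zero_eq_one]
  · intro x y
    rw [← AddChar.map_add_eq_mul]
    exact key _ _ (by rw [Function.surjInv_eq hs, hadd, Function.surjInv_eq hs,
      Function.surjInv_eq hs])
  · ext f
    exact key _ _ (Function.surjInv_eq hs _)

open Classical in
/-- the characters which are trivial on the multiples of `E` -/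
noncomputable def XX (E : Z →₀ ℕ) : Finset (AddChar A ℂ) :=
  (univ : Finset (AddChar (A ⧸ S.J E) ℂ)).image (pull S E)

theorem mem_XX {E : Z →₀ ℕ} (χ : AddChar A ℂ) :
    χ ∈ XX S E ↔ ∀ h, S.In E h → χ h = 1 := by
  classical
  unfold XX
  constructor
  · intro hχ h hh
    obtain ⟨ψ, -, rfl⟩ := Finset.mem_image.1 hχ
    have h0 : S.cm E h = S.cm E 0 := by rw [S.cm_eq, sub_zero]; exact hh
    have h1 : S.cm E 0 = 0 := rfl
    rw [pull_apply, h0, h1, AddChar.map_zero_eq_one]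
  · intro hχ
    obtain ⟨ψ, rfl⟩ := exists_pull S hχ
    exact Finset.mem_image_of_mem _ (Finset.mem_univ _)

theorem card_XX (E : Z →₀ ℕ) : (XX S E).card ≤ S.q ^ S.dE E := by
  classical
  unfold XX
  let := Fintype.ofFinite (A ⧸ S.J E)
  refine Finset.card_image_le.trans ?_
  rw [Finset.card_univ, ← card_quot S E, ← AddChar.card_eq (α := A ⧸ S.J E)]

/-- the square of the absolute value of the exponential sum -/
noncomputable def FF (T : Finset A) (a : A → ℝ) (χ : AddChar A ℂ) : ℝ :=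
  ‖∑ f ∈ T, (a f : ℂ) * χ f‖ ^ 2

open Classical in
theorem sum_XX (E : Z →₀ ℕ) (T : Finset A) (a : A → ℝ) :
    ∑ χ ∈ XX S E, FF T a χ = (S.q : ℝ) ^ S.dE E *
      ∑ f ∈ T, ∑ f' ∈ T, (if S.In E (f - f') then a f * a f' else 0) := by
  let := Fintype.ofFinite (A ⧸ S.J E)
  rw [XX, Finset.sum_image fun x _ y _ h => pull_inj S E h]
  have h1 := parseval (G := A ⧸ S.J E) T a (S.cm E)
  rw [card_quot S E] at h1
  simp only [S.cm_eq] at h1
  push_cast at h1
  rw [← h1]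
  exact Fintype.sum_equiv (Equiv.refl _) _ _ fun ψ => rfl

/-! ### Conductors -/

theorem exists_cond {b : A} (hb : b ≠ 0) {χ : AddChar A ℂ} (hχ : ∀ f, χ (b * f) = 1) :
    ∃ E, S.Cond χ E ∧ E ≤ S.dv b := by
  let I : Ideal A :=
    { carrier := {h | ∀ f, χ (h * f) = 1}
      zero_mem' := fun f => by rw [zero_mul, AddChar.map_zero_eq_one]
      add_mem' := fun {x y} hx hy f => by rw [add_mul, AddChar.map_add_eq_mul, hx f, hy f, one_mul]
      smul_mem' := fun c x hx f => by rw [smul_eq_mul, mul_comm c x, mul_assoc]; exact hx _ }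
  have hI : ∀ h, h ∈ I ↔ ∀ f, χ (h * f) = 1 := fun h => Iff.rfl
  have hbI : b ∈ I := (hI b).2 hχ
  have hne : I ≠ ⊥ := by
    intro h
    rw [h, Ideal.mem_bot] at hbI
    exact hb hbI
  obtain ⟨E, hE⟩ := idealCls A Z S I hne
  exact ⟨E, hE, (S.In_iff hb).1 ((hE b).1 hbI)⟩

theorem le_of_J_le {E F : Z →₀ ℕ} (h : ∀ x, S.In E x → S.In F x) : F ≤ E := by
  have h1 : S.J (E ⊔ F) = S.J E := by
    rw [← S.J_inf]
    exact inf_eq_left.2 h
  have h2 := S.index_J (E ⊔ F)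
  rw [h1, S.index_J] at h2
  have h3 : S.dE E = S.dE (E ⊔ F) := Nat.pow_right_injective S.two_le_q h2
  have h4 : S.dE ((E ⊔ F) - E) = 0 := by
    have := S.dE_sub (le_sup_left : E ≤ E ⊔ F)
    omega
  have h5 := S.dE_eq_zero h4
  rw [tsub_eq_zero_iff_le] at h5
  exact le_sup_right.trans h5

theorem cond_unique {χ : AddChar A ℂ} {E F : Z →₀ ℕ} (h1 : S.Cond χ E) (h2 : S.Cond χ F) :
    E = F :=
  le_antisymm (le_of_J_le S fun x hx => (h1 x).1 ((h2 x).2 hx))
    (le_of_J_le S fun x hx => (h2 x).1 ((h1 x).2 hx))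

theorem Cond_one {χ : AddChar A ℂ} {E : Z →₀ ℕ} (h : S.Cond χ E) {x : A} (hx : S.In E x) :
    χ x = 1 := by
  have := (h x).2 hx 1
  rwa [mul_one] at this

open Classical in
/-- the characters with the conductor `E` -/
noncomputable def PP (E : Z →₀ ℕ) : Finset (AddChar A ℂ) := (XX S E).filter (S.Cond · E)

theorem mem_PP {E : Z →₀ ℕ} {χ : AddChar A ℂ} : χ ∈ PP S E ↔ S.Cond χ E := by
  classical
  unfold PP
  rw [Finset.mem_filter]
  exact ⟨fun h => h.2, fun hc => ⟨(mem_XX S χ).2 fun h hh => Cond_one S hc hh, hc⟩⟩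

theorem FF_nonneg (T : Finset A) (a : A → ℝ) (χ : AddChar A ℂ) : 0 ≤ FF T a χ := by
  unfold FF; positivity

/-- the sum over the characters with the conductor `E` -/
noncomputable def WW (T : Finset A) (a : A → ℝ) (E : Z →₀ ℕ) : ℝ := ∑ χ ∈ PP S E, FF T a χ

theorem WW_nonneg (T : Finset A) (a : A → ℝ) (E : Z →₀ ℕ) : 0 ≤ WW S T a E :=
  Finset.sum_nonneg fun _ _ => FF_nonneg T a _

theorem WW_le (T : Finset A) (a : A → ℝ) (E : Z →₀ ℕ) {c : ℝ} (hc : 0 ≤ c)
    (H : ∀ χ, S.Cond χ E → FF T a χ ≤ c) : WW S T a E ≤ (S.q : ℝ) ^ S.dE E * c := by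
  classical
  have h1 : WW S T a E ≤ (PP S E).card • c :=
    Finset.sum_le_card_nsmul _ _ _ fun χ hχ => H χ ((mem_PP S).1 hχ)
  have h2 : (PP S E).card ≤ S.q ^ S.dE E :=
    (Finset.card_filter_le _ _).trans (card_XX S E)
  rw [nsmul_eq_mul] at h1
  refine h1.trans (mul_le_mul_of_nonneg_right ?_ hc)
  exact_mod_cast h2

/-! ### Characters with conductors of large degree -/

theorem eq_of_eq_low {χ₁ χ₂ : AddChar A ℂ} {E₁ E₂ : Z →₀ ℕ} {m : ℕ} (c₁ : S.Cond χ₁ E₁)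
    (c₂ : S.Cond χ₂ E₂) (hm : S.dE E₁ + S.dE E₂ + S.c₀ ≤ S.δ * m)
    (h : ∀ f : A, f ∈ S.B m → χ₁ f = χ₂ f) : χ₁ = χ₂ := by
  ext f
  have h1 : f ∈ S.B m ⊔ S.J (E₁ + E₂) := by
    rw [S.sup_eq_top _ m (by rwa [S.dE_add])]; exact AddSubgroup.mem_top _
  obtain ⟨b, hb, i, hi, rfl⟩ := AddSubgroup.mem_sup.1 h1
  have hi1 : S.In E₁ i := S.In_mono le_self_add hi
  have hi2 : S.In E₂ i := S.In_mono le_add_self hi
  rw [AddChar.map_add_eq_mul, AddChar.map_add_eq_mul, Cond_one S c₁ hi1, Cond_one S c₂ hi2,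
    h b hb]

/-- restriction of a character -/
noncomputable def res (m : ℕ) (χ : AddChar A ℂ) : AddChar (S.B m) ℂ :=
  χ.compAddMonoidHom (S.B m).subtype

theorem res_apply (m : ℕ) (χ : AddChar A ℂ) (x : S.B m) : res S m χ x = χ (x : A) := rfl

theorem sum_big (M : A) (T : Finset A) (a : A → ℝ) (n m : ℕ) (h2 : 2 * n + S.c₀ ≤ S.δ * m)
    (hT : ∀ f ∈ T, f ∈ S.B m) :
    ∑ E ∈ S.Ecop M n, WW S T a E ≤ (S.q : ℝ) ^ (S.δ * m) * ∑ f ∈ T, a f ^ 2 := by
  classical
  have : Finite (S.B m) := (S.B_finite m).to_subtype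
  let := Fintype.ofFinite (S.B m)
  have hcard : (Fintype.card (S.B m) : ℝ) ≤ (S.q : ℝ) ^ (S.δ * m) := by
    have h3 := S.card_B m (by omega)
    rw [Nat.card_eq_fintype_card] at h3
    have h4 : Fintype.card (S.B m) ≤ S.q ^ (S.δ * m) := by
      rw [← h3]; exact Nat.le_mul_of_pos_right _ (pow_pos S.q_pos _)
    exact_mod_cast h4
  have hdisj : ∀ E ∈ S.Ecop M n, ∀ F ∈ S.Ecop M n, E ≠ F → Disjoint (PP S E) (PP S F) := by
    intro E _ F _ hne
    rw [Finset.disjoint_left]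
    intro χ h1 h2
    exact hne (cond_unique S ((mem_PP S).1 h1) ((mem_PP S).1 h2))
  unfold WW
  rw [← Finset.sum_biUnion hdisj]
  let e : A → S.B m := fun f => if h : f ∈ S.B m then ⟨f, h⟩ else 0
  have he : ∀ f ∈ T, ((e f : S.B m) : A) = f := by
    intro f hf
    simp only [e, dif_pos (hT f hf)]
  have hinj : Set.InjOn (res S m)
      ((((S.Ecop M n).biUnion (PP S) : Finset (AddChar A ℂ))) : Set (AddChar A ℂ)) := by
    intro χ₁ h₁ χ₂ h₂ h12
    obtain ⟨g₁, m₁, n₁⟩ := Finset.mem_biUnion.1 h₁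
    obtain ⟨g₂, m₂, n₂⟩ := Finset.mem_biUnion.1 h₂
    refine eq_of_eq_low S (m := m) ((mem_PP S).1 n₁) ((mem_PP S).1 n₂) ?_ fun f hf => ?_
    · rw [((mem_Ecop S).1 m₁).1, ((mem_Ecop S).1 m₂).1]; omega
    · exact DFunLike.congr_fun h12 (⟨f, hf⟩ : S.B m)
  have hF : ∀ χ : AddChar A ℂ, FF T a χ = ‖∑ f ∈ T, (a f : ℂ) * (res S m χ) (e f)‖ ^ 2 := by
    intro χ
    unfold FF
    congr 2
    refine Finset.sum_congr rfl fun f hf => ?_
    rw [res_apply, he f hf]
  have hsq : 0 ≤ ∑ f ∈ T, a f ^ 2 := Finset.sum_nonneg fun _ _ => by positivity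
  calc ∑ χ ∈ (S.Ecop M n).biUnion (PP S), FF T a χ
      = ∑ χ ∈ (S.Ecop M n).biUnion (PP S), ‖∑ f ∈ T, (a f : ℂ) * (res S m χ) (e f)‖ ^ 2 :=
        Finset.sum_congr rfl fun χ _ => hF χ
    _ = ∑ ψ ∈ ((S.Ecop M n).biUnion (PP S)).image (res S m),
          ‖∑ f ∈ T, (a f : ℂ) * ψ (e f)‖ ^ 2 :=
        (Finset.sum_image (f := fun ψ : AddChar (S.B m) ℂ =>
          ‖∑ f ∈ T, (a f : ℂ) * ψ (e f)‖ ^ 2) hinj).symm
    _ ≤ ∑ ψ : AddChar (S.B m) ℂ, ‖∑ f ∈ T, (a f : ℂ) * ψ (e f)‖ ^ 2 :=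
        Finset.sum_le_sum_of_subset_of_nonneg (Finset.subset_univ _) fun _ _ _ => by positivity
    _ = (Fintype.card (S.B m) : ℝ) * ∑ f ∈ T, a f ^ 2 := by
        rw [parseval]
        congr 1
        refine Finset.sum_congr rfl fun f hf => ?_
        rw [Finset.sum_eq_single f]
        · rw [if_pos rfl, pow_two]
        · intro f' hf' hne
          rw [if_neg]
          intro h
          exact hne (by rw [← he f hf, ← he f' hf', h])
        · intro h; exact absurd hf h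
    _ ≤ _ := mul_le_mul_of_nonneg_right hcard hsq

/-! ### Assembly -/

theorem ecop_zero (M : A) : S.Ecop M 0 = {0} := by
  ext E
  rw [mem_Ecop, Finset.mem_singleton]
  constructor
  · rintro ⟨h1, -⟩
    exact S.dE_eq_zero h1
  · rintro rfl
    exact ⟨S.dE_zero, fun z => Or.inl rfl⟩

theorem WW_one (T : Finset A) (a : A → ℝ) : WW S T a 0 ≤ (∑ f ∈ T, a f) ^ 2 := by
  have h := WW_le S T a 0 (c := (∑ f ∈ T, a f) ^ 2) (by positivity) ?_
  · simpa [S.dE_zero] using h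
  · intro χ hχ
    have h1 : ∀ f, χ f = 1 := fun f => Cond_one S hχ (S.In_all f)
    unfold FF
    simp only [h1, mul_one]
    rw [← Complex.ofReal_sum, Complex.norm_real, Real.norm_eq_abs, sq_abs]

open Classical in
/-- the sum over the characters trivial on `(b)` in terms of conductors -/
theorem sum_XX_le (M : A) (T : Finset A) (a : A → ℝ) {b : A} {Bd : ℕ} (hb : b ≠ 0)
    (hd : S.δ * S.ht b ≤ Bd) (hc : S.Cp (S.dv b) M) :
    ∑ χ ∈ XX S (S.dv b), FF T a χ ≤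
      ∑ n ∈ range (Bd + 1), ∑ E ∈ S.Ecop M n, if E ≤ S.dv b then WW S T a E else 0 := by
  have hsub : XX S (S.dv b) ⊆ ((range (Bd + 1)).sigma fun n =>
      (S.Ecop M n).filter (· ≤ S.dv b)).biUnion fun x => PP S x.2 := by
    intro χ hχ
    obtain ⟨E, h1, h2⟩ := exists_cond S hb (χ := χ) (fun f => (mem_XX S χ).1 hχ _ (by
      rw [← S.dvd_iff_In hb]; exact Dvd.intro _ rfl))
    refine Finset.mem_biUnion.2 ⟨⟨S.dE E, E⟩, ?_, (mem_PP S).2 h1⟩
    rw [Finset.mem_sigma, Finset.mem_range, Finset.mem_filter, mem_Ecop]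
    refine ⟨Nat.lt_succ_of_le ?_, ⟨rfl, fun z => ?_⟩, h2⟩
    · have := S.dE_mono h2
      rw [S.dE_dv' hb] at this
      exact this.trans hd
    · rcases hc z with h | h
      · left
        have h3 := h2 z
        rw [h] at h3
        exact Nat.le_zero.1 h3
      · exact Or.inr h
  refine (Finset.sum_le_sum_of_subset_of_nonneg hsub fun _ _ _ => FF_nonneg T a _).trans ?_
  rw [Finset.sum_biUnion, Finset.sum_sigma]
  · refine le_of_eq (Finset.sum_congr rfl fun n _ => ?_)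
    rw [Finset.sum_filter]
    rfl
  · rintro ⟨n, h⟩ hx ⟨n', h'⟩ hx' hne
    rw [Function.onFun, Finset.disjoint_left]
    intro χ h1 h2
    have e := cond_unique S ((mem_PP S).1 h1) ((mem_PP S).1 h2)
    simp only at e
    subst e
    simp only [Finset.coe_sigma, Set.mem_sigma_iff, Finset.mem_coe, Finset.mem_filter, mem_Ecop]
      at hx hx'
    apply hne
    rw [← hx.2.1.1, ← hx'.2.1.1]

end chars

/-- PIECE `Sieve` -/
theorem sieve : Sieve := by
  classical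
  intro A Z _ _ S M T a H Θ _ B Bd D₀ G p hS ha hB hG hp hp0
  -- the number of `t` with `E ∣ B t`
  let c : (Z →₀ ℕ) → ℝ := fun E => (({t | E ≤ S.dv (B t)}.ncard : ℕ) : ℝ)
  have hc0 : ∀ E, 0 ≤ c E := fun E => Nat.cast_nonneg _
  have hc : ∀ E : Z →₀ ℕ, c E = ∑ t : Θ, if E ≤ S.dv (B t) then (1 : ℝ) else 0 := by
    intro E
    simp only [c]
    rw [Finset.sum_boole, Set.ncard_eq_toFinset_card']
    congr 2
    ext t
    simp
  let TT : ℕ → ℝ := fun n => ∑ E ∈ S.Ecop M n, c E * WW S T a E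
  have hT0 : ∀ n, 0 ≤ TT n := fun n => Finset.sum_nonneg fun E _ =>
    mul_nonneg (hc0 E) (WW_nonneg S T a E)
  have hB0 : ∀ t, B t ≠ 0 := fun t => S.mon_ne _ (hB t).1
  have hmain : ∑ t, (S.q : ℝ) ^ (S.δ * S.ht (B t)) *
        ∑ f ∈ T, ∑ f' ∈ T, (if B t ∣ f - f' then a f * a f' else 0) ≤
      ∑ n ∈ range (Bd + 1), TT n := by
    calc ∑ t, (S.q : ℝ) ^ (S.δ * S.ht (B t)) *
          ∑ f ∈ T, ∑ f' ∈ T, (if B t ∣ f - f' then a f * a f' else 0)
        = ∑ t, ∑ χ ∈ XX S (S.dv (B t)), FF T a χ := by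
          refine Finset.sum_congr rfl fun t _ => ?_
          rw [sum_XX S (S.dv (B t)), S.dE_dv' (hB0 t)]
          congr 1
          refine Finset.sum_congr rfl fun f _ => Finset.sum_congr rfl fun f' _ => ?_
          simp only [S.dvd_iff_In (hB0 t)]
      _ ≤ ∑ t, ∑ n ∈ range (Bd + 1), ∑ E ∈ S.Ecop M n,
            (if E ≤ S.dv (B t) then WW S T a E else 0) :=
          Finset.sum_le_sum fun t _ => sum_XX_le S M T a (hB0 t) (hB t).2.1 (hB t).2.2
      _ = ∑ n ∈ range (Bd + 1), TT n := by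
          rw [Finset.sum_comm]
          refine Finset.sum_congr rfl fun n _ => ?_
          rw [Finset.sum_comm]
          refine Finset.sum_congr rfl fun h _ => ?_
          rw [hc, Finset.sum_mul]
          refine Finset.sum_congr rfl fun t _ => ?_
          split_ifs <;> simp
  refine hmain.trans ?_
  have hrange : range (Bd + 1) ⊆ ({0} ∪ Icc 1 D₀) ∪ Icc (D₀ + 1) Bd := by
    intro n hn
    simp only [Finset.mem_range, Finset.mem_union, Finset.mem_singleton, Finset.mem_Icc] at hn ⊢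
    omega
  have h0 : TT 0 ≤ (Fintype.card Θ : ℝ) * (∑ f ∈ T, a f) ^ 2 := by
    simp only [TT]
    rw [ecop_zero, Finset.sum_singleton]
    have : c 0 = Fintype.card Θ := by
      rw [hc]; simp
    rw [this]
    exact mul_le_mul_of_nonneg_left (WW_one S T a) (Nat.cast_nonneg _)
  have h1 : ∑ n ∈ Icc 1 D₀, TT n ≤ ∑ n ∈ Icc 1 D₀, ∑ E ∈ S.Ecop M n,
        (({t | E ≤ S.dv (B t)}.ncard : ℕ) : ℝ) * (S.q : ℝ) ^ S.dE E * G E ^ 2 := by
    refine Finset.sum_le_sum fun n hn => Finset.sum_le_sum fun h hh => ?_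
    rw [Finset.mem_Icc] at hn
    obtain ⟨m2, m3⟩ := (mem_Ecop S).1 hh
    rw [mul_assoc]
    refine mul_le_mul_of_nonneg_left ?_ (hc0 h)
    refine WW_le S T a h (by positivity) fun χ hχ => ?_
    unfold FF
    exact pow_le_pow_left₀ (norm_nonneg _) (hG χ h hχ (by omega) (by omega) m3) 2
  have h2 : ∑ n ∈ Icc (D₀ + 1) Bd, TT n ≤
      ∑ n ∈ Icc (D₀ + 1) Bd, p n * (S.q : ℝ) ^ (max (2 * n) (S.δ * H) + (S.c₀ + S.δ)) *
        ∑ f ∈ T, a f ^ 2 := by
    refine Finset.sum_le_sum fun n hn => ?_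
    rw [Finset.mem_Icc] at hn
    obtain ⟨m, hm1, hm2, hm3⟩ : ∃ m, 2 * n + S.c₀ ≤ S.δ * m ∧ H ≤ m ∧
        S.δ * m ≤ max (2 * n) (S.δ * H) + (S.c₀ + S.δ) := by
      have k1 := (Nat.lt_mul_div_succ (max (2 * n) (S.δ * H) + S.c₀) S.δ_pos).le
      have k2 := Nat.mul_div_le (max (2 * n) (S.δ * H) + S.c₀) S.δ
      have k3 := le_max_left (2 * n) (S.δ * H)
      have k4 := le_max_right (2 * n) (S.δ * H)
      refine ⟨(max (2 * n) (S.δ * H) + S.c₀) / S.δ + 1, by omega, ?_, ?_⟩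
      · refine Nat.le_of_mul_le_mul_left ?_ S.δ_pos
        omega
      · rw [Nat.mul_add, mul_one]
        omega
    have hsq : 0 ≤ ∑ f ∈ T, a f ^ 2 := Finset.sum_nonneg fun _ _ => by positivity
    have hq : (1 : ℝ) ≤ S.q := by exact_mod_cast S.q_pos
    calc TT n ≤ ∑ h ∈ S.Ecop M n, p n * WW S T a h := by
          refine Finset.sum_le_sum fun h hh => ?_
          obtain ⟨m2, m3⟩ := (mem_Ecop S).1 hh
          refine mul_le_mul_of_nonneg_right ?_ (WW_nonneg S T a h)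
          have := hp h m3 (by omega)
          rwa [m2] at this
      _ = p n * ∑ h ∈ S.Ecop M n, WW S T a h := by rw [Finset.mul_sum]
      _ ≤ p n * ((S.q : ℝ) ^ (S.δ * m) * ∑ f ∈ T, a f ^ 2) := by
          refine mul_le_mul_of_nonneg_left ?_ (hp0 n)
          refine sum_big S M T a n m hm1 fun f hf => ?_
          exact (hS f hf).imp id fun h => lt_of_lt_of_le h hm2
      _ ≤ p n * ((S.q : ℝ) ^ (max (2 * n) (S.δ * H) + (S.c₀ + S.δ)) * ∑ f ∈ T, a f ^ 2) := by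
          refine mul_le_mul_of_nonneg_left ?_ (hp0 n)
          exact mul_le_mul_of_nonneg_right (pow_le_pow_right₀ hq hm3) hsq
      _ = _ := by ring
  calc ∑ n ∈ range (Bd + 1), TT n ≤ ∑ n ∈ ({0} ∪ Icc 1 D₀) ∪ Icc (D₀ + 1) Bd, TT n :=
        Finset.sum_le_sum_of_subset_of_nonneg hrange fun n _ _ => hT0 n
    _ ≤ (∑ n ∈ ({0} ∪ Icc 1 D₀), TT n) + ∑ n ∈ Icc (D₀ + 1) Bd, TT n := by
        rw [← Finset.sum_union_inter]
        exact le_add_of_nonneg_right (Finset.sum_nonneg fun n _ => hT0 n)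
    _ ≤ (TT 0 + ∑ n ∈ Icc 1 D₀, TT n) + ∑ n ∈ Icc (D₀ + 1) Bd, TT n := by
        refine add_le_add_left ?_ _
        have := Finset.sum_union_inter (s₁ := ({0} : Finset ℕ)) (s₂ := Icc 1 D₀) (f := TT)
        rw [Finset.sum_singleton] at this
        rw [← this]
        exact le_add_of_nonneg_right (Finset.sum_nonneg fun n _ => hT0 n)
    _ ≤ _ := add_le_add (add_le_add h0 h1) h2

end Pool.Agent.T9h5.GG
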