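import Pool.Agent.T9h42.GF.Spec2

/-!
# `SpanDual` for all global function fields: the axiomatic structure and the pieces

`A` is the ring of the functions of a global function field which are regular outside one place
`∞` of degree `δ`; `Z` is the set of the other places. An effective divisor away from `∞` is an
`E : Z →₀ ℕ`. The whole proof only uses the structure `Ar A Z`.

Dictionary with `k[X]` (`T9h42.GF`): `Monic` ↦ `S.mon`, `natDegree` ↦ `S.ht` (for elements),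
monic divisors / conductors `h` ↦ `E : Z →₀ ℕ`, `h.natDegree` ↦ `S.dE E`, `h ∣ x` ↦ `S.In E x`,
`IsCoprime h M` ↦ `S.Cp E M`, `mdiv h` ↦ `dvs E`, `#k` ↦ `S.q`, but `q ^ natDegree` of an
element ↦ `S.q ^ (S.δ * S.ht x)`. In `k[X]`: `δ = 1`, `c = c₀ = 0`.
-/

set_option autoImplicit false

namespace Pool.Agent.T9h5.GG

open Finset

/-- degree of a divisor. -/
noncomputable def dEg {Z : Type} (dg : Z → ℕ) (E : Z →₀ ℕ) : ℕ := E.sum fun z n => n * dg z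

/-- Arithmetic of the ring of functions with poles only at `∞`. -/
structure Ar (A Z : Type) [CommRing A] where
  q : ℕ
  δ : ℕ
  c : ℕ
  c₀ : ℕ
  two_le_q : 2 ≤ q
  δ_pos : 0 < δ
  dg : Z → ℕ
  dg_pos : ∀ z, 0 < dg z
  /-- divisor of zeros -/
  dv : A → Z →₀ ℕ
  /-- pole order at `∞` -/
  ht : A → ℕ
  dv_mul : ∀ x y, x ≠ 0 → y ≠ 0 → dv (x * y) = dv x + dv y
  dv_add : ∀ x y, x ≠ 0 → y ≠ 0 → x + y ≠ 0 → ∀ z, min (dv x z) (dv y z) ≤ dv (x + y) z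
  dvd_of_le : ∀ x y, x ≠ 0 → y ≠ 0 → dv x ≤ dv y → x ∣ y
  dE_dv : ∀ x, x ≠ 0 → dEg dg (dv x) = δ * ht x
  ht_add : ∀ x y, x ≠ 0 → y ≠ 0 → x + y ≠ 0 → ht (x + y) ≤ max (ht x) (ht y)
  /-- the number of elements of height `< m` divisible by `E` is `q ^ (δ m - deg E - c)` -/
  box : ∀ (E : Z →₀ ℕ) (m : ℕ), dEg dg E + c₀ ≤ δ * m →
    {x : A | x = 0 ∨ (E ≤ dv x ∧ ht x < m)}.ncard * q ^ (dEg dg E + c) = q ^ (δ * m)
  /-- sign `1` at `∞` -/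
  mon : A → Prop
  mon_ne : ∀ x, mon x → x ≠ 0
  mon_one : mon 1
  mon_mul : ∀ x y, mon x → mon y → mon (x * y)
  mon_cancel : ∀ x y, mon x → mon (x * y) → mon y
  mon_add : ∀ x y, mon x → y ≠ 0 → ht y < ht x → mon (x + y)
  mon_sub : ∀ x y, mon x → mon y → ht x = ht y → x ≠ y → ht (x - y) < ht x
  mon_ex : ∀ m, c₀ ≤ δ * m → ∃ x, mon x ∧ ht x = m
  mon_pow : ∃ N, 0 < N ∧ ∀ x, x ≠ 0 → mon (x ^ N)

open Classical in
/-- a finite set as a `Finset` (junk: `∅`). -/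
noncomputable def fs {T : Type} (s : Set T) : Finset T := if h : s.Finite then h.toFinset else ∅

namespace Ar

variable {A Z : Type} [CommRing A] (S : Ar A Z)

/-- degree of a divisor. -/
noncomputable def dE (E : Z →₀ ℕ) : ℕ := dEg S.dg E

/-- `x` is divisible by `E`. -/
def In (E : Z →₀ ℕ) (x : A) : Prop := x = 0 ∨ E ≤ S.dv x

/-- `E` is prime to `M`. -/
def Cp (E : Z →₀ ℕ) (M : A) : Prop := ∀ z, E z = 0 ∨ S.dv M z = 0

/-- all `x` with `ht (x - g) < D`. -/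
noncomputable def Box (g : A) (D : ℕ) : Finset A := fs {x | x = g ∨ S.ht (x - g) < D}

/-- elements of sign `1` and height `D`, prime to `M`. -/
noncomputable def Cop (M : A) (D : ℕ) : Finset A :=
  fs {x | S.mon x ∧ S.ht x = D ∧ IsCoprime x M}

/-- effective divisors of degree `n`, prime to `M`. -/
noncomputable def Ecop (M : A) (n : ℕ) : Finset (Z →₀ ℕ) := fs {E | S.dE E = n ∧ S.Cp E M}

/-- `E` is the conductor of the additive character `χ` of `A`. -/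
def Cond (χ : AddChar A ℂ) (E : Z →₀ ℕ) : Prop := ∀ h, (∀ f, χ (h * f) = 1) ↔ S.In E h

end Ar

/-! ## 1. Basic facts (helper5: `Basic.lean`, proved there; use them as hypotheses or import) -/

/-- the number of elements in boxes, residue classes in boxes. -/
def BoxCount : Prop :=
  ∀ (A Z : Type) [CommRing A] [IsDomain A] (S : Ar A Z) (E : Z →₀ ℕ) (ρ g : A) (D : ℕ),
    S.dE E + S.c₀ ≤ S.δ * D →
    {x ∈ (S.Box g D : Set A) | S.In E (x - ρ)}.ncard * S.q ^ (S.dE E + S.c) = S.q ^ (S.δ * D)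

/-- membership. -/
def BoxMem : Prop :=
  ∀ (A Z : Type) [CommRing A] [IsDomain A] (S : Ar A Z),
    (∀ (g x : A) (D : ℕ), x ∈ S.Box g D ↔ x = g ∨ S.ht (x - g) < D) ∧
    (∀ (M x : A) (D : ℕ), x ∈ S.Cop M D ↔ S.mon x ∧ S.ht x = D ∧ IsCoprime x M) ∧
    (∀ (M : A) (E : Z →₀ ℕ) (n : ℕ), E ∈ S.Ecop M n ↔ S.dE E = n ∧ S.Cp E M) ∧
    (∀ (g : A) (D : ℕ), S.c₀ ≤ S.δ * D → (S.Box g D).card * S.q ^ S.c = S.q ^ (S.δ * D)) ∧
    (∀ (g : A) (D : ℕ), (S.Box g D).card ≤ S.q ^ (S.δ * D + (S.c₀ + S.δ)))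

/-- coprime elements: Bezout. -/
def CopIff : Prop :=
  ∀ (A Z : Type) [CommRing A] [IsDomain A] (S : Ar A Z) (x y : A), x ≠ 0 → y ≠ 0 →
    (IsCoprime x y ↔ ∀ z, S.dv x z = 0 ∨ S.dv y z = 0)

/-- Chinese remainder theorem for `E` and an element. -/
def Crt : Prop :=
  ∀ (A Z : Type) [CommRing A] [IsDomain A] (S : Ar A Z) (E F : Z →₀ ℕ),
    (∀ z, E z = 0 ∨ F z = 0) → ∀ a b : A, ∃ x, S.In E (x - a) ∧ S.In F (x - b)

/-- every nonzero ideal is `{x | S.In E x}`. -/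
def IdealCls : Prop :=
  ∀ (A Z : Type) [CommRing A] [IsDomain A] (S : Ar A Z) (J : Ideal A), J ≠ ⊥ →
    ∃ E : Z →₀ ℕ, ∀ x, x ∈ J ↔ S.In E x

/-- at most `C q^n` effective divisors of degree `n`. -/
def EffCount : Prop :=
  ∀ (A Z : Type) [CommRing A] [IsDomain A] (S : Ar A Z), ∃ C : ℕ, ∀ n : ℕ,
    {E : Z →₀ ℕ | S.dE E = n}.Finite ∧ {E : Z →₀ ℕ | S.dE E = n}.ncard ≤ C * S.q ^ n

/-- units are torsion; a power of each place is principal; there are infinitely many places. -/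
def Primes : Prop :=
  ∀ (A Z : Type) [CommRing A] [IsDomain A] (S : Ar A Z),
    (∀ u : A, u ≠ 0 → S.dv u = 0 → ∃ n, 0 < n ∧ u ^ n = 1) ∧
    (∀ z, ∃ (σ : A) (N : ℕ), 0 < N ∧ S.mon σ ∧ S.dv σ = Finsupp.single z N) ∧ Infinite Z ∧
    ∀ n, {z | S.dg z ≤ n}.Finite

/-! ## 2. Counting -/

/-- PIECE `BoxCop`. -/
def BoxCop : Prop :=
  ∀ (A Z : Type) [CommRing A] [IsDomain A] (S : Ar A Z) (M : A), M ≠ 0 → ∃ φ : ℕ, 0 < φ ∧
    ∀ (g w : A) (D : ℕ), S.δ * S.ht M + S.c₀ ≤ S.δ * D →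
    {x ∈ (S.Box g D : Set A) | IsCoprime (x - w) M}.ncard * S.q ^ (S.δ * S.ht M + S.c) =
      φ * S.q ^ (S.δ * D)

/-- PIECE `DivCount`: elements of `Cop M D` divisible by `E`. -/
def DivCount : Prop :=
  ∀ (A Z : Type) [CommRing A] [IsDomain A] (S : Ar A Z) (M : A), M ≠ 0 →
    ∀ (E : Z →₀ ℕ) (D : ℕ), S.Cp E M → S.δ * S.ht M + S.c₀ ≤ S.δ * D →
    ((S.δ * S.ht M + S.dE E + S.c₀ ≤ S.δ * D →
      {x ∈ (S.Cop M D : Set A) | E ≤ S.dv x}.ncard * S.q ^ S.dE E = (S.Cop M D).card) ∧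
    ({x ∈ (S.Cop M D : Set A) | E ≤ S.dv x}.ncard * S.q ^ S.dE E ≤
      S.q ^ (S.δ * S.ht M + S.c₀ + S.δ) * (S.Cop M D).card))

/-- PIECE `LocCount` (uses `BoxCount`, `BoxCop`-like counting). Number of `x ∈ Cop (αβ) d`,
`x ≡ ρ mod H`, such that `c = α'' x + β z` with `z ∈ Cop (αβ) E`; here `α ∣ α''`.
Proof. Let `g` be of sign `1` and height `E` (`mon_ex`), `s = L - E - ht β`. `A = α''A + (box of
height ht α'' + (d - s))` (`BoxCount` for `E = dv α''`), so there is `x_c` with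
`ht (c - β g - α'' x_c) < ht α'' + (d - s) = ht β + E`; the conditions `x` of sign `1`, height `d`,
`z` of sign `1`, height `E` mean `x ∈ Box x_c (d - s)` and `β ∣ c - α'' x`. The remaining conditions
only depend on `x` modulo `H + dv α + 2 dv β`, and the number of good classes is `φ(αβ)`
(`x ≡ ρ (H)`; `x` invertible mod `α`; `x ≡ c/α'' (β)` and `(c - α'' x)/β` invertible mod `β`; `x` prime
to `β` and `z` prime to `α` are automatic). -/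
def LocCount : Prop :=
  ∀ (A Z : Type) [CommRing A] [IsDomain A] (S : Ar A Z) (α β α'' c ρ : A) (H : Z →₀ ℕ)
    (L E d : ℕ), S.mon α → S.mon β → S.mon α'' → IsCoprime α'' β → α ∣ α'' →
    S.Cp H (α * β) → c ∈ S.Cop (α * β) L → S.ht α'' + d = L → S.ht β + E < L →
    S.δ * L + S.dE H + S.δ * S.ht (α * β) + S.c₀ ≤ S.δ * (E + d) →
    {x ∈ (S.Cop (α * β) d : Set A) | S.In H (x - ρ) ∧ ∃ z ∈ S.Cop (α * β) E,
      c = α'' * x + β * z}.ncard * S.q ^ (S.dE H + S.δ * (L - E)) = (S.Cop (α * β) d).card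

open Classical in
/-- the divisors of `E`. -/
noncomputable def dvs {Z : Type} (E : Z →₀ ℕ) : Finset (Z →₀ ℕ) := Finset.Iic E

/-- PIECE `Tau`: rough divisors have few divisors. -/
def Tau : Prop :=
  ∀ (A Z : Type) [CommRing A] [IsDomain A] (S : Ar A Z) (w : ℕ) (E : Z →₀ ℕ), 0 < w →
    (∀ z, E z ≠ 0 → w ≤ S.dg z) → (dvs E).card ≤ 2 ^ (S.dE E / w)

/-- PIECE `DivProd`. Induction on `j`: `E ≤ dv x + dv y ⟹ E - F ≤ dv y` for `F = E ⊓ dv x`. -/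
def DivProd : Prop :=
  ∀ (A Z : Type) [CommRing A] [IsDomain A] (S : Ar A Z) (E : Z →₀ ℕ) (T : Finset A) (B : ℝ)
    (j : ℕ), 0 ∉ T → 0 ≤ B → (∀ F : Z →₀ ℕ, F ≤ E →
      (({x ∈ (T : Set A) | F ≤ S.dv x}.ncard : ℕ) : ℝ) * (S.q : ℝ) ^ S.dE F ≤ B * T.card) →
    (({x : Fin j → A | (∀ i, x i ∈ T) ∧ E ≤ S.dv (∏ i, x i)}.ncard : ℕ) : ℝ) *
      (S.q : ℝ) ^ S.dE E ≤ ((dvs E).card : ℝ) ^ j * B ^ j * (T.card : ℝ) ^ j

open Classical in
/-- PIECE `NonCop` (from `BoxMem`, `DivCount`, `EffCount`): few pairs are not coprime. -/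
def NonCop : Prop :=
  ∀ (A Z : Type) [CommRing A] [IsDomain A] (S : Ar A Z) (ε : ℝ), 0 < ε → ∃ w₀ : ℕ, ∀ w : ℕ,
    w₀ ≤ w → ∀ M : A, M ≠ 0 → (∀ z, S.dg z ≤ w → S.dv M z ≠ 0) →
    ∃ d₀ : ℕ, ∀ D₁ D₂ : ℕ, d₀ ≤ D₁ → d₀ ≤ D₂ →
      (((S.Cop M D₁ ×ˢ S.Cop M D₂).filter (fun p => ¬ IsCoprime p.1 p.2)).card : ℝ) ≤
        ε * (S.Cop M D₁).card * (S.Cop M D₂).card

open Classical in
/-- PIECE `Sieve` (large sieve inequality over `A`). As in `T9h42.GF.Spec`, the conductors are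
divisors; two different characters with conductors of degree `n` differ on the box of height
`m` if `δ m ≥ 2 n + c₀`; a box of height `m` has at most `q ^ (δ m)` elements if `δ m ≥ c₀`. -/
def Sieve : Prop :=
  ∀ (A Z : Type) [CommRing A] [IsDomain A] (S : Ar A Z) (M : A) (T : Finset A) (a : A → ℝ)
    (H : ℕ) (Θ : Type) [Fintype Θ] (B : Θ → A) (Bd D₀ : ℕ) (G : (Z →₀ ℕ) → ℝ) (p : ℕ → ℝ),
    (∀ f ∈ T, f = 0 ∨ S.ht f < H) → (∀ f, 0 ≤ a f) →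
    (∀ t, S.mon (B t) ∧ S.δ * S.ht (B t) ≤ Bd ∧ S.Cp (S.dv (B t)) M) →
    (∀ (χ : AddChar A ℂ) (E : Z →₀ ℕ), S.Cond χ E → 1 ≤ S.dE E → S.dE E ≤ D₀ →
      S.Cp E M → ‖∑ f ∈ T, (a f : ℂ) * χ f‖ ≤ G E) →
    (∀ E : Z →₀ ℕ, S.Cp E M → D₀ < S.dE E →
      (({t | E ≤ S.dv (B t)}.ncard : ℕ) : ℝ) ≤ p (S.dE E)) →
    (∀ n, 0 ≤ p n) →
    ∑ t, (S.q : ℝ) ^ (S.δ * S.ht (B t)) *
        ∑ f ∈ T, ∑ f' ∈ T, (if B t ∣ f - f' then a f * a f' else 0) ≤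
      (Fintype.card Θ : ℝ) * (∑ f ∈ T, a f) ^ 2 +
      ∑ n ∈ Icc 1 D₀, ∑ E ∈ S.Ecop M n,
        (({t | E ≤ S.dv (B t)}.ncard : ℕ) : ℝ) * (S.q : ℝ) ^ S.dE E * G E ^ 2 +
      ∑ n ∈ Icc (D₀ + 1) Bd, p n * (S.q : ℝ) ^ (max (2 * n) (S.δ * H) + (S.c₀ + S.δ)) *
        ∑ f ∈ T, a f ^ 2

end Pool.Agent.T9h5.GG
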