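import Pool.Agent.T9h5.GG.Spec3
import Pool.Agent.T9h5.GG.Basic
import Pool.Agent.T9h5.GG.Cnt
import Pool.Agent.T9h5.GG.Loc
import Pool.Agent.T9h5.GG.Sieve
import Pool.Agent.T9h5.GG.CharAw
import Pool.Agent.T9h42.GG.SB
import Pool.Agent.T9h67.GG.SumAwOne
import Pool.Agent.T9h69.GG.EffCount
import Pool.Agent.T9h69.GG.NonCop
import Pool.Agent.T9h46.GG.Div
import Pool.Agent.T9h46.GG.TP
import Pool.Agent.T9h71.GG.CountOfCore
import Pool.Agent.T9h84.GG.C6
import Pool.Agent.T9h89.GG.EndGame
import Pool.Agent.T9h85.GG.FFAr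
import Pool.Agent.T9h77.GG.Final
import Pool.Agent.T9h42.GF.Main

/-!
# `SpanDual F` for all fields `F` of characteristic `p` and transcendence degree at most one
-/

set_option autoImplicit false

namespace Pool.Agent.T9h5.GG

open H39Gon

theorem sieveBound : SieveBound :=
  Pool.Agent.T9h42.GG.sieveBoundOf' Pool.Agent.T9h67.GG.sumAwOneOf charAwOf boxMem boxCop boxCount
    copIff idealCls Pool.Agent.T9h69.GG.effCount divCount locCount Pool.Agent.T9h46.GG.tau
    Pool.Agent.T9h46.GG.divProd sieve

theorem core : Core :=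
  Pool.Agent.T9h84.GG.coreOf boxMem boxCount boxCop copIff Pool.Agent.T9h69.GG.nonCop sieveBound

theorem countThm : CountThm := Pool.Agent.T9h71.GG.countOfCore boxMem core

theorem tp : TP := Pool.Agent.T9h46.GG.tpOfCount Pool.Agent.T9h42.GF.robust countThm

/-- `SpanDual` for the fraction fields of the rings with the structure `Ar`. -/
theorem sdAr : SDAr :=
  Pool.Agent.T9h89.GG.endGame Pool.Agent.T9h67.GF.comb Pool.Agent.T9h89.GF.pol1
    Pool.Agent.T9h89.GF.pol2 copIff Pool.Agent.T9h69.GG.primes tp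

/-- `SpanDual` for function fields in one variable over finite fields. -/
theorem spanDual_ff (k K : Type) [Field k] [Finite k] [Field K] [Algebra k K] [FF.IsFF k K]
    (m : ℕ) : SpanDual K m := by
  obtain ⟨A, Z, S, hfr⟩ := Pool.Agent.T9h85.GG.ffAr k K
  exact sdAr A Z K S m

/-- all fields of characteristic `p` and transcendence degree at most one. -/
theorem sdAll : SDAll := Pool.Agent.T9h77.GG.final sdAr Pool.Agent.T9h85.GG.ffAr

end Pool.Agent.T9h5.GG
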