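import Pool.Agent.T9h5.GG.Spec

/-!
# The core estimate, the count theorem, typical points, the endgame: statements for `Ar A Z`

Proof sketches: `Pool/Agent/T9h42/GF/{Spec2,Spec3,C4}.lean` (the same with `k[X]`).
-/

set_option autoImplicit false

namespace Pool.Agent.T9h5.GG

open Finset H39Gon
open Pool.Agent.T9h42.GF (Ix av ce Deg Robust Comb Pol1 Pol2)

section slots

variable {A : Type} [CommRing A]

/-- the slots. -/
def Sl (K : ℕ → Finset A) (N s d e L : ℕ) : Ix N s → Finset A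
  | none => K L
  | some (Sum.inl _) => K d
  | some (Sum.inr _) => K e

/-- points of a slot. -/
abbrev Pt (K : ℕ → Finset A) (N s d e L : ℕ) (i : Ix N s) : Type := {x : A // x ∈ Sl K N s d e L i}

open Classical in
/-- weight of the solutions of `α a + β b = c`, `a = ∏ x_i`, `b = ∏ y_j`. -/
noncomputable def Wf (K : ℕ → Finset A) (α β : A) (N s d e L : ℕ)
    (x : ∀ i, Pt K N s d e L i) : ℝ :=
  if α * ∏ i, (x (some (Sum.inl i))).1 + β * ∏ j, (x (some (Sum.inr j))).1 = (x none).1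
  then ((K L).card : ℝ) else 0

open Classical in
/-- normalised number of solutions `(v, y)`, `v ∈ X^n`, `y ∈ Y`, of `α₁ ∏ v + β b₁ y = c`. -/
noncomputable def wn (C X Y : Finset A) (n : ℕ) (β α₁ b₁ c : A) : ℝ :=
  (C.card : ℝ) * ((((Fintype.piFinset (fun _ : Fin n => X)) ×ˢ Y).filter
    (fun v => α₁ * ∏ i, v.1 i + β * (b₁ * v.2) = c)).card : ℝ) / ((X.card : ℝ) ^ n * Y.card)

end slots

/-- the count theorem. -/
def CountThm : Prop :=
  ∀ (A Z : Type) [CommRing A] [IsDomain A] (S : Ar A Z) (r : ℕ) (ε : ℝ), 1 ≤ r → 0 < ε → ∃ w : ℕ,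
    ∀ (α β : A), S.mon α → S.mon β → IsCoprime α β → (∀ z, S.dg z ≤ w → S.dv (α * β) z ≠ 0) →
    ∀ j : ℕ, S.ht β < S.ht α + 2 * r * j → ∃ d₀ : ℕ, ∀ d : ℕ, d₀ ≤ d →
    ∀ K : ℕ → Finset A, K = S.Cop (α * β) →
      (∀ i, Nonempty (Pt K (2 * r * (2 * r + 2)) (2 * r) d ((2 * r + 2) * d - j)
        (S.ht α + 2 * r * (2 * r + 2) * d) i)) ∧
      ∀ U : Finset (Ix (2 * r * (2 * r + 2)) (2 * r)), U.card ≤ 2 * r →
        av (fun x => |ce U (Wf K α β (2 * r * (2 * r + 2)) (2 * r) d ((2 * r + 2) * d - j)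
          (S.ht α + 2 * r * (2 * r + 2) * d)) x - 1|) ≤ ε

/-- the core estimate. -/
def Core : Prop :=
  ∀ (A Z : Type) [CommRing A] [IsDomain A] (S : Ar A Z) (r : ℕ) (ε : ℝ), 1 ≤ r → 0 < ε → ∃ w : ℕ,
    ∀ (α β : A), S.mon α → S.mon β → IsCoprime α β → (∀ z, S.dg z ≤ w → S.dv (α * β) z ≠ 0) →
    ∀ j : ℕ, S.ht β < S.ht α + 2 * r * j → ∃ d₀ : ℕ, ∀ d : ℕ, d₀ ≤ d →
    ∀ X Y C : Finset A, X = S.Cop (α * β) d → Y = S.Cop (α * β) ((2 * r + 2) * d - j) →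
      C = S.Cop (α * β) (S.ht α + 2 * r * (2 * r + 2) * d) →
      0 < X.card ∧ 0 < Y.card ∧ 0 < C.card ∧
      ∑ u ∈ Fintype.piFinset (fun _ : Fin (2 * r) => X),
        ∑ t ∈ Fintype.piFinset (fun _ : Fin (2 * r - 1) => Y),
          ∑ c ∈ C, |wn C X Y (2 * r * (2 * r + 1)) β (α * ∏ i, u i) (∏ i, t i) c - 1|
        ≤ ε * (X.card : ℝ) ^ (2 * r) * (Y.card : ℝ) ^ (2 * r - 1) * C.card

/-- PIECE `CountOfCore` (port of `T9h71.GF.countOfCore`, pure bookkeeping; `S0`: `α a + β b` lies in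
`Cop (αβ) L` by `mon_add`). -/
def CountOfCore : Prop := BoxMem → Core → CountThm

section mom

variable {A Z : Type} [CommRing A] (S : Ar A Z)

/-- `c = α₁ f + β z` with `z` of sign `1` and height `E` prime to `αβ`. -/
def Ph (α β : A) (E : ℕ) (α₁ c f : A) : Prop := ∃ z ∈ S.Cop (α * β) E, c = α₁ * f + β * z

open Classical in
/-- number of `v ∈ X^n` with `∏ v = f`, if `Ph`. -/
noncomputable def aw (α β : A) (E d n : ℕ) (α₁ c f : A) : ℝ :=
  ∑ v ∈ Fintype.piFinset (fun _ : Fin n => S.Cop (α * β) d),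
    if ∏ i, v i = f ∧ Ph S α β E α₁ c f then 1 else 0

end mom

open Classical in
/-- the bound from the sieve (`T9h42.GF.C4`, `C5`). -/
def SieveBound : Prop :=
  ∀ (A Z : Type) [CommRing A] [IsDomain A] (S : Ar A Z) (r : ℕ) (ε : ℝ), 1 ≤ r → 0 < ε →
    ∃ w₀ : ℕ, ∀ w : ℕ, w₀ ≤ w → ∀ (α β : A), S.mon α → S.mon β →
      (∀ z, S.dg z ≤ w → S.dv (α * β) z ≠ 0) →
    ∀ j : ℕ, S.ht β < S.ht α + 2 * r * j → ∃ d₀ : ℕ, ∀ d : ℕ, d₀ ≤ d →
    ∀ (e L n n' : ℕ), e = (2 * r + 2) * d - j → L = S.ht α + 2 * r * (2 * r + 2) * d →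
      n = 2 * r * (2 * r + 1) → n = n' + 1 →
    ∀ α₁ : A, S.mon α₁ → α ∣ α₁ → IsCoprime α₁ β → S.ht α₁ = S.ht α + 2 * r * d →
    ∀ c ∈ S.Cop (α * β) L,
      ∑ t ∈ Fintype.piFinset (fun _ : Fin (2 * r - 1) => S.Cop (α * β) e),
        (S.q : ℝ) ^ (S.δ * ((2 * r - 1) * e)) *
        (∑ f ∈ S.Cop (α * β) (n * d), ∑ f' ∈ S.Cop (α * β) (n * d),
          if (∏ i, t i) ∣ f - f' then aw S α β ((2 * r - 1) * e + e) d n α₁ c f *
            aw S α β ((2 * r - 1) * e + e) d n α₁ c f' else 0) ≤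
      (1 + ε) * (((S.Cop (α * β) e).card : ℝ) ^ (2 * r - 1) *
        (((S.Cop (α * β) d).card : ℝ) ^ n /
          (S.q : ℝ) ^ (S.δ * (L - ((2 * r - 1) * e + e)))) ^ 2)

/-- PIECE `SieveBoundOf` (port of `T9h42.GF.{C1,C2,C4,C5}`). -/
def SieveBoundOf : Prop :=
  BoxMem → BoxCop → BoxCount → CopIff → IdealCls → EffCount → DivCount → LocCount → Tau →
    DivProd → Sieve → SieveBound

/-- PIECE `CoreOf` (port of `T9h42.GF.{C3,C6}`). -/
def CoreOf : Prop :=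
  BoxMem → BoxCount → BoxCop → CopIff → NonCop → SieveBound → Core

/-! ## The field -/

/-- class in `K^*` of an element of `A`. -/
noncomputable def pc {A : Type} [CommRing A] (K : Type) [Field K] [Algebra A K] (a : A) : UV K :=
  cl (algebraMap A K a)

/-- typical points. -/
def TP : Prop :=
  ∀ (A Z K : Type) [CommRing A] [IsDomain A] [Field K] [Algebra A K] [IsFractionRing A K]
    (S : Ar A Z) (m : ℕ), ∃ w : ℕ,
    ∀ Q : MultilinearMap ℤ (fun _ : Fin (m + 1) => UV K) (UV K →ₗ[ℤ] ℚ),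
      (∀ f : K, f ≠ 0 → f ≠ 1 → Q (fun _ => cl f) (cl (1 - f)) = 0) →
    ∀ (I : Type) [Fintype I] (α β : I → A) (A₀ : ℕ), Fintype.card I ≤ 2 ^ (m + 2) →
      (∀ i, S.mon (α i) ∧ S.mon (β i) ∧ IsCoprime (α i) (β i) ∧ S.ht (α i) = A₀) →
      (∀ i z, S.dg z ≤ w → S.dv (α i * β i) z ≠ 0) →
      (∀ i j x, IsCoprime x (α i * β i) ↔ IsCoprime x (α j * β j)) →
      ∃ a b c : A, a ≠ 0 ∧ b ≠ 0 ∧ c ≠ 0 ∧
        ∀ i, Q (fun _ => pc K a + pc K (α i) - pc K b - pc K (β i))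
          (pc K c - pc K b - pc K (β i)) = 0

/-- PIECE `TPofCount` (port of `T9h46.GF.tpOfCount` / `T9h71.GF.tpOfCount`). -/
def TPofCount : Prop := Robust → CountThm → TP

/-- PIECE `EndGame` (port of `T9h89.GF.endGame`). `Z` infinite and `σ_z` (sign `1`, divisor a multiple
of `z`) by `Primes`. For `a ∈ A`, `a ≠ 0`, some power of `a` is a unit (torsion) times a product of
`σ_z`; so an additive map `K^* → ℚ` which kills all `σ_z` is `0`. Use `S.ht σ_z` for the degree. -/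
def EndGame : Prop :=
  Comb → Pol1 → Pol2 → CopIff → Primes → TP →
    ∀ (A Z K : Type) [CommRing A] [IsDomain A] [Field K] [Algebra A K] [IsFractionRing A K]
      (_ : Ar A Z) (m : ℕ), SpanDual K m

end Pool.Agent.T9h5.GG
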