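import Pool.Agent.T9h5.GG.Spec2
import Pool.Agent.H525R3.FFp.Riemann

/-!
# Function fields, and fields of transcendence degree one: statements
-/

set_option autoImplicit false

namespace Pool.Agent.T9h5.GG

open H39Gon
open Pool.Agent.T9h42.GF (Comb Pol1 Pol2 Robust)

/-- PIECE `FFAr`: every function field `K / k` in one variable, `k` finite, has a ring with the
structure `Ar`.

Proof. `∞ := P₀` any place (`exists_place`), `δ = P₀.deg`, `A = {f | f = 0 ∨ ∀ P ≠ P₀, 0 ≤ P.ord f}`,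
`Z = {P // P ≠ P₀}`, `q = #k`, `dg P = P.deg` (`deg_pos`), `dv f = (P.ord f).toNat`
(`finite_support`), `ht f = (- P₀.ord f).toNat`. `dE_dv` is `ddeg_divisor`. Box: for `m ≥ 1` the set
is `LL (single P₀ (m-1) - E)`, so with `riemann` (`γ`, `N`) it has `q ^ (δ m - deg E - (δ + γ))`
elements if `δ (m - 1) - deg E ≥ N`; `c = δ + γ` (`≥ 0`: `ell ((m-1)∞) ≤ ell (-∞) + δ m = δ m` by
`ell_le` and `LL_eq_bot`), `c₀ = |N| + 2 δ + 1 + c`. Sign: `t` with `P₀.ord t = 1` (`surj`);
`mon x ↔ x ≠ 0 ∧ P₀.red (x * t ^ (ht x)) = 1` (`red_mul`, `red_eq_zero_iff`); `mon_pow` for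
`N = #RF - 1`; `mon_ex`: `x ↦ red (x t^m)` on `LL (m ∞)` has kernel `LL ((m-1) ∞)`, so it is onto `RF`
by dimension. Fractions: for `f ∈ K` there is `b ≠ 0` in `A` with `b f ∈ A` (`LL (m ∞ - polar f) ≠ 0`
for large `m`). -/
def FFAr : Prop :=
  ∀ (k K : Type) [Field k] [Finite k] [Field K] [Algebra k K] [FF.IsFF k K],
    ∃ (A : Subring K) (Z : Type) (_ : Ar A Z), IsFractionRing A K

/-- the theorem for `Ar`. -/
def SDAr : Prop :=
  ∀ (A Z K : Type) [CommRing A] [IsDomain A] [Field K] [Algebra A K] [IsFractionRing A K]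
    (_ : Ar A Z) (m : ℕ), SpanDual K m

/-- all fields of characteristic `p` and transcendence degree at most one. -/
def SDAll : Prop :=
  ∀ (p : ℕ) [Fact p.Prime] (F : Type) [Field F] [Algebra (ZMod p) F],
    Algebra.trdeg (ZMod p) F ≤ 1 → ∀ m : ℕ, SpanDual F m

/-- PIECE `Final`. Given `Q` and `s = cl f`, `v = cl g` (`exists_cl`), take `t ∈ F` with `F` algebraic
over `F_p(t)` and `K = F_p(t, f, g) ⊆ F`. If `t` is transcendental then `IsFF (ZMod p) K`
(`IsFF.of_finite`), so `SpanDual K m`, and restrict `Q` (as in `T9h59.GD.spanDual_of_locRat`). If `t` is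
algebraic then `f`, `g` are roots of unity, and `Q` vanishes. -/
def Final : Prop := SDAr → FFAr → SDAll

end Pool.Agent.T9h5.GG
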